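import Pool.Agent.K3h1.TF.Ord

/-!
# Project TF: the local equations of `c δ_ζ / δ_1` and global elements with given residues
-/

set_option autoImplicit false

namespace Pool.Agent.K3h1.TF

open NumberField IsDedekindDomain Polynomial Pool.Agent.Y546.WQ Pool.Agent.K3h1.FC

open scoped TensorProduct

section

variable {p : ℕ} [Fact p.Prime] {E : Type} [Field E] [NumberField E] {r : ℕ} [Fact r.Prime]

omit [Fact p.Prime] in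
theorem one_tmul_one : ((1 : ℚ_[r]) ⊗ₜ[ℚ] (1 : E) : Loc r E) = 1 := rfl

/-- the quotient of the equations of two of the factors -/
theorem ratioC (k : Cyc p E) {c : ℤ} (δ : E → E) (D : E) (hT : TwistC p c E δ D)
    (x y z : ℚ_[r]) (hxy : x + y ≠ 0) (h : LiftsC p r E δ D x y z) :
    ∃ u : Loc r E, ((1 : ℚ_[r]) ⊗ₜ[ℚ] ((c : E) * (δ k.z / δ 1))) * u ^ p =
      (c * x / (x + y)) ⊗ₜ[ℚ] (1 : E) + (c * y / (x + y)) ⊗ₜ[ℚ] k.z := by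
  have hpp : p.Prime := Fact.out
  obtain ⟨C, w, hw, _⟩ := h
  have hz1 : k.z ∈ nthRootsFinset p (1 : E) := by
    rw [mem_nthRootsFinset hpp.pos]
    exact k.prim.pow_eq_one
  have h11 : (1 : E) ∈ nthRootsFinset p (1 : E) := by
    rw [mem_nthRootsFinset hpp.pos]
    exact one_pow p
  have e1 := hw 1 h11
  have e2 := hw k.z hz1
  have hδ1 := hT.ne 1 h11
  have hu1 : (((x + y) ⊗ₜ[ℚ] (1 : E) : Loc r E)) * ((x + y)⁻¹ ⊗ₜ[ℚ] (1 : E)) = 1 := by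
    rw [Algebra.TensorProduct.tmul_mul_tmul, mul_inv_cancel₀ hxy, one_mul]
    rfl
  have hu2 : (((1 : ℚ_[r]) ⊗ₜ[ℚ] δ 1 : Loc r E)) * ((1 : ℚ_[r]) ⊗ₜ[ℚ] (δ 1)⁻¹) = 1 := by
    rw [Algebra.TensorProduct.tmul_mul_tmul, mul_inv_cancel₀ hδ1, one_mul]
    rfl
  have e1' : (C : Loc r E) * ((x + y) ⊗ₜ[ℚ] (1 : E)) = ((1 : ℚ_[r]) ⊗ₜ[ℚ] δ 1) * w 1 ^ p := by
    rw [← e1, TensorProduct.add_tmul]
  have hU : IsUnit (((1 : ℚ_[r]) ⊗ₜ[ℚ] δ 1 : Loc r E) * w 1 ^ p) := by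
    rw [← e1']
    exact C.isUnit.mul (IsUnit.of_mul_eq_one _ hu1)
  have hw1 : IsUnit (w 1) := by
    have h3 := isUnit_of_mul_isUnit_right hU
    exact (isUnit_pow_iff hpp.ne_zero).1 h3
  obtain ⟨W, hW⟩ := hw1
  have hWW : w 1 * ((W⁻¹ : (Loc r E)ˣ) : Loc r E) = 1 := by rw [← hW, W.mul_inv]
  refine ⟨w k.z * ((W⁻¹ : (Loc r E)ˣ) : Loc r E), ?_⟩
  set V : Loc r E := ((W⁻¹ : (Loc r E)ˣ) : Loc r E) with hV
  have hVp : w 1 ^ p * V ^ p = 1 := by rw [← mul_pow, hWW, one_pow]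
  have hcc : ((1 : ℚ_[r]) ⊗ₜ[ℚ] (c : E) : Loc r E) = (c : ℚ_[r]) ⊗ₜ[ℚ] (1 : E) := by
    have e2 : (c : E) = (c : ℚ) • (1 : E) := by rw [Algebra.smul_def]; simp
    rw [e2, ← TensorProduct.smul_tmul, Algebra.smul_def]
    simp
  have e3 : ((1 : ℚ_[r]) ⊗ₜ[ℚ] ((c : E) * (δ k.z / δ 1)) : Loc r E) =
      ((c : ℚ_[r]) ⊗ₜ[ℚ] (1 : E)) *
        (((1 : ℚ_[r]) ⊗ₜ[ℚ] δ k.z) * ((1 : ℚ_[r]) ⊗ₜ[ℚ] (δ 1)⁻¹)) := by
    rw [div_eq_mul_inv, one_tmul_mul, one_tmul_mul, hcc]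
  have e4 : ((c * x / (x + y)) ⊗ₜ[ℚ] (1 : E) + (c * y / (x + y)) ⊗ₜ[ℚ] k.z : Loc r E) =
      ((c : ℚ_[r]) ⊗ₜ[ℚ] (1 : E)) *
        ((x ⊗ₜ[ℚ] (1 : E) + y ⊗ₜ[ℚ] k.z) * ((x + y)⁻¹ ⊗ₜ[ℚ] (1 : E))) := by
    rw [add_mul, Algebra.TensorProduct.tmul_mul_tmul, Algebra.TensorProduct.tmul_mul_tmul,
      mul_add, Algebra.TensorProduct.tmul_mul_tmul, Algebra.TensorProduct.tmul_mul_tmul,
      mul_one, mul_one, mul_one, one_mul, div_eq_mul_inv, div_eq_mul_inv, mul_assoc, mul_assoc]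
  rw [e3, e4]
  have hCu : (C : Loc r E) * ((C⁻¹ : (Loc r E)ˣ) : Loc r E) = 1 := C.mul_inv
  set C' : Loc r E := ((C⁻¹ : (Loc r E)ˣ) : Loc r E) with hC'
  set a := (x ⊗ₜ[ℚ] (1 : E) + y ⊗ₜ[ℚ] k.z : Loc r E)
  set s := ((x + y) ⊗ₜ[ℚ] (1 : E) : Loc r E)
  set s' := ((x + y)⁻¹ ⊗ₜ[ℚ] (1 : E) : Loc r E)
  set d := ((1 : ℚ_[r]) ⊗ₜ[ℚ] δ 1 : Loc r E)
  set d' := ((1 : ℚ_[r]) ⊗ₜ[ℚ] (δ 1)⁻¹ : Loc r E)
  set dz := ((1 : ℚ_[r]) ⊗ₜ[ℚ] δ k.z : Loc r E)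
  rw [mul_assoc]
  congr 1
  calc dz * d' * (w k.z * V) ^ p = (dz * w k.z ^ p) * (d' * V ^ p) := by ring
    _ = (C * a) * (d' * V ^ p) := by rw [← e2]
    _ = a * s' * ((C * s) * (d' * V ^ p)) := by linear_combination (-a * C * d' * V ^ p) * hu1
    _ = a * s' * ((d * w 1 ^ p) * (d' * V ^ p)) := by rw [e1']
    _ = a * s' * ((d * d') * (w 1 ^ p * V ^ p)) := by ring
    _ = a * s' := by rw [hu2, hVp, mul_one, mul_one]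

/-- the product of the equations of all but one of the factors -/
theorem prodC [DecidableEq E] (hPR : S_PRODZ) (hp2 : p ≠ 2) (k : Cyc p E) {c : ℤ} (δ : E → E)
    (D : E) (hT : TwistC p c E δ D) (x y z : ℚ_[r]) (hy : y ≠ 0) (h : LiftsC p r E δ D x y z) :
    ∃ u : Loc r E, ((1 : ℚ_[r]) ⊗ₜ[ℚ] ((c : E) * (δ k.z / δ 1))) * u ^ p =
      ((∑ i ∈ Finset.range p, x ^ i * (-y) ^ (p - 1 - i)) * x) ⊗ₜ[ℚ] (1 : E) +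
      ((∑ i ∈ Finset.range p, x ^ i * (-y) ^ (p - 1 - i)) * y) ⊗ₜ[ℚ] k.z := by
  have hpp : p.Prime := Fact.out
  obtain ⟨C, w, hw, _⟩ := h
  have hz1 : k.z ∈ nthRootsFinset p (1 : E) := by
    rw [mem_nthRootsFinset hpp.pos]
    exact k.prim.pow_eq_one
  have h11 : (1 : E) ∈ nthRootsFinset p (1 : E) := by
    rw [mem_nthRootsFinset hpp.pos]
    exact one_pow p
  have hδ1 := hT.ne 1 h11
  have hN := hPR p hp2 E k r x y hy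
  set N : ℚ_[r] := ∑ i ∈ Finset.range p, x ^ i * (-y) ^ (p - 1 - i) with hNdef
  -- the product of the factors
  have h1 : (C : Loc r E) ^ (p - 1) * (N ⊗ₜ[ℚ] (1 : E)) =
      ((1 : ℚ_[r]) ⊗ₜ[ℚ] (∏ ξ ∈ (nthRootsFinset p (1 : E)).erase 1, δ ξ)) *
        (∏ ξ ∈ (nthRootsFinset p (1 : E)).erase 1, w ξ) ^ p := by
    have e0 : ∏ ξ ∈ (nthRootsFinset p (1 : E)).erase 1,
        ((C : Loc r E) * (x ⊗ₜ[ℚ] (1 : E) + y ⊗ₜ[ℚ] ξ)) =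
        ∏ ξ ∈ (nthRootsFinset p (1 : E)).erase 1, (((1 : ℚ_[r]) ⊗ₜ[ℚ] δ ξ) * w ξ ^ p) :=
      Finset.prod_congr rfl fun ξ hξ => hw ξ (Finset.mem_of_mem_erase hξ)
    rw [Finset.prod_mul_distrib, Finset.prod_mul_distrib, Finset.prod_const,
      Finset.card_erase_of_mem h11, k.prim.card_nthRootsFinset, hN, Finset.prod_pow] at e0
    rw [e0]
    congr 1
    have e2 : ∀ s : Finset E, ((1 : ℚ_[r]) ⊗ₜ[ℚ] (∏ ξ ∈ s, δ ξ) : Loc r E) =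
        ∏ ξ ∈ s, ((1 : ℚ_[r]) ⊗ₜ[ℚ] δ ξ : Loc r E) := by
      intro s
      induction s using Finset.induction_on with
      | empty => simp [one_tmul_one]
      | insert j s hj ih => rw [Finset.prod_insert hj, Finset.prod_insert hj, one_tmul_mul, ih]
    rw [e2]
  have h2 : δ 1 * ∏ ξ ∈ (nthRootsFinset p (1 : E)).erase 1, δ ξ = c * D ^ p := by
    rw [Finset.mul_prod_erase _ _ h11]
    exact hT.prod
  have h3 : ∏ ξ ∈ (nthRootsFinset p (1 : E)).erase 1, δ ξ = c * D ^ p / δ 1 := by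
    rw [eq_div_iff hδ1, mul_comm]
    exact h2
  set W := ∏ ξ ∈ (nthRootsFinset p (1 : E)).erase 1, w ξ with hWdef
  have hCu : (C : Loc r E) * ((C⁻¹ : (Loc r E)ˣ) : Loc r E) = 1 := C.mul_inv
  set C' : Loc r E := ((C⁻¹ : (Loc r E)ˣ) : Loc r E) with hC'
  refine ⟨((1 : ℚ_[r]) ⊗ₜ[ℚ] D) * W * w k.z * C', ?_⟩
  have e4 : ((N * x) ⊗ₜ[ℚ] (1 : E) + (N * y) ⊗ₜ[ℚ] k.z : Loc r E) =
      (N ⊗ₜ[ℚ] (1 : E)) * (x ⊗ₜ[ℚ] (1 : E) + y ⊗ₜ[ℚ] k.z) := by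
    rw [mul_add, Algebra.TensorProduct.tmul_mul_tmul, Algebra.TensorProduct.tmul_mul_tmul,
      one_mul, one_mul]
  rw [e4]
  have e2 := hw k.z hz1
  rw [h3] at h1
  have e5 : ((1 : ℚ_[r]) ⊗ₜ[ℚ] ((c : E) * (δ k.z / δ 1)) : Loc r E) * ((1 : ℚ_[r]) ⊗ₜ[ℚ] D) ^ p =
      ((1 : ℚ_[r]) ⊗ₜ[ℚ] (c * D ^ p / δ 1)) * ((1 : ℚ_[r]) ⊗ₜ[ℚ] δ k.z) := by
    rw [← one_tmul_pow, ← one_tmul_mul, ← one_tmul_mul]
    congr 1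
    ring
  have hpow : (C : Loc r E) ^ p = (C : Loc r E) ^ (p - 1) * C := by
    rw [← pow_succ, Nat.sub_add_cancel hpp.one_le]
  have hCC : (C : Loc r E) ^ p * C' ^ p = 1 := by rw [← mul_pow, hCu, one_pow]
  set a := (x ⊗ₜ[ℚ] (1 : E) + y ⊗ₜ[ℚ] k.z : Loc r E)
  set n := (N ⊗ₜ[ℚ] (1 : E) : Loc r E)
  set Dt := ((1 : ℚ_[r]) ⊗ₜ[ℚ] D : Loc r E)
  set β := ((1 : ℚ_[r]) ⊗ₜ[ℚ] ((c : E) * (δ k.z / δ 1)) : Loc r E)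
  set γ := ((1 : ℚ_[r]) ⊗ₜ[ℚ] (c * D ^ p / δ 1) : Loc r E)
  set dz := ((1 : ℚ_[r]) ⊗ₜ[ℚ] δ k.z : Loc r E)
  calc β * (Dt * W * w k.z * C') ^ p = (β * Dt ^ p) * W ^ p * w k.z ^ p * C' ^ p := by ring
    _ = (γ * dz) * W ^ p * w k.z ^ p * C' ^ p := by rw [e5]
    _ = (γ * W ^ p) * (dz * w k.z ^ p) * C' ^ p := by ring
    _ = ((C : Loc r E) ^ (p - 1) * n) * (C * a) * C' ^ p := by rw [← h1, ← e2]
    _ = (n * a) * (((C : Loc r E) ^ (p - 1) * C) * C' ^ p) := by ring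
    _ = n * a := by rw [← hpow, hCC, mul_one]

/-- a global element with given residues -/
theorem coreC (hWA : S_WA) (h5 : 5 ≤ p) (c : Cyc p E) (β : E)
    (hord : ∀ P : HeightOneSpectrum (𝓞 E), ∃ m : ℤ,
      P.valuation E β = WithZero.exp ((p : ℤ) * m))
    (a₀ a₁ : ℚ_[p]) (ha₀ : ‖a₀‖ ≤ 1) (ha₁ : ‖a₁‖ ≤ 1) (ha : ‖a₀ + a₁‖ = 1) (u : Loc p E)
    (hu : ((1 : ℚ_[p]) ⊗ₜ[ℚ] β) * u ^ p = a₀ ⊗ₜ[ℚ] (1 : E) + a₁ ⊗ₜ[ℚ] c.z)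
    (q : ℕ) [Fact q.Prime] (hqp : q ≠ p) (b₀ b₁ : ℚ_[q]) (hb₀ : ‖b₀‖ ≤ 1) (hb₁ : ‖b₁‖ ≤ 1)
    (v : Loc q E) (hv : ((1 : ℚ_[q]) ⊗ₜ[ℚ] β) * v ^ p = b₀ ⊗ₜ[ℚ] (1 : E) + b₁ ⊗ₜ[ℚ] c.z)
    (A₀ A₁ B₀ B₁ : ℤ) (hA₀ : ‖a₀ - (A₀ : ℚ_[p])‖ < 1) (hA₁ : ‖a₁ - (A₁ : ℚ_[p])‖ < 1)
    (hB₀ : ‖b₀ - (B₀ : ℚ_[q])‖ < 1) (hB₁ : ‖b₁ - (B₁ : ℚ_[q])‖ < 1) :
    ∃ (f : ℤ[X]) (n : ℤ), ¬ (p : ℤ) ∣ n ∧ ¬ (q : ℤ) ∣ n ∧ aeval c.z f ≠ 0 ∧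
      (∀ P : HeightOneSpectrum (𝓞 E), ∃ m : ℤ, P.valuation E (aeval c.z f) =
        P.valuation E ((n : ℤ) : E) * WithZero.exp ((p : ℤ) * m)) ∧
      f.map (Int.castRingHom (ZMod p)) = Polynomial.C (n : ZMod p) *
        (Polynomial.C (A₀ : ZMod p) + Polynomial.C (A₁ : ZMod p) * X) ∧
      f.map (Int.castRingHom (ZMod q)) = Polynomial.C (n : ZMod q) *
        (Polynomial.C (B₀ : ZMod q) + Polynomial.C (B₁ : ZMod q) * X) := by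
  have hpp : p.Prime := Fact.out
  obtain ⟨ε₁, hε₁, h₁⟩ := prec c β u
  obtain ⟨ε₂, hε₂, h₂⟩ := prec c β v
  obtain ⟨u', hu1, hu2⟩ := approx2 hWA hqp.symm c u v (min ε₁ ε₂) (lt_min hε₁ hε₂)
  have k1 := h₁ u' (hu1.mono (min_le_left _ _))
  have k2 := h₂ u' (hu2.mono (min_le_right _ _))
  rw [hu] at k1
  rw [hv] at k2
  set e := β * u' ^ p with he
  obtain ⟨n, g, hn, hg, hng⟩ := exists_int (fun i => rc c e i)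
  have hle : ∀ (r : ℕ) [Fact r.Prime] (t₀ t₁ : ℚ_[r]), ‖t₀‖ ≤ 1 → ‖t₁‖ ≤ 1 →
      Le r c ((t₀ ⊗ₜ[ℚ] (1 : E) + t₁ ⊗ₜ[ℚ] c.z) - (1 : ℚ_[r]) ⊗ₜ[ℚ] e) (1 / 2) →
      ∀ i, ‖(rc c e i : ℚ_[r])‖ ≤ 1 := by
    intro r _ t₀ t₁ ht₀ ht₁ h i
    have h1 := h i
    rw [lc_sub, lc_lin h5, lc_tmul, mul_one] at h1
    have h2 : (rc c e i : ℚ_[r]) = (if (i : ℕ) = 0 then t₀ else if (i : ℕ) = 1 then t₁ else 0) -
        ((if (i : ℕ) = 0 then t₀ else if (i : ℕ) = 1 then t₁ else 0) - (rc c e i : ℚ_[r])) := by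
      ring
    rw [h2, sub_eq_add_neg]
    refine (Padic.nonarchimedean _ _).trans (max_le ?_ ?_)
    · split_ifs
      · exact ht₀
      · exact ht₁
      · rw [norm_zero]; exact zero_le_one
    · rw [norm_neg]
      linarith
  have hf : aeval c.z (∑ i, Polynomial.C (g i) * X ^ (i : ℕ) : ℤ[X]) = (n : E) * e := by
    rw [map_sum]
    conv_rhs => rw [← sum_rc c e]
    rw [Finset.mul_sum]
    refine Finset.sum_congr rfl fun i _ => ?_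
    rw [map_mul, map_pow, aeval_X, aeval_C]
    have h3 : (algebraMap ℤ E) (g i) = (n : E) * (rc c e i : E) := by
      have h4 : ((g i : ℚ) : E) = ((n * rc c e i : ℚ) : E) := by rw [hg i]
      push_cast at h4
      simpa using h4
    rw [h3]
    ring
  have he0 : e ≠ 0 := by
    intro h0
    have h6 : ∀ i, (rc c e i : ℚ_[p]) = 0 := by
      intro i
      rw [h0]
      simp [rc]
    have h7 := k1 ⟨0, by omega⟩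
    have h8 := k1 ⟨1, by omega⟩
    rw [lc_sub, lc_lin h5, lc_tmul, mul_one, h6] at h7 h8
    simp only [if_true, sub_zero, one_ne_zero, if_false] at h7 h8
    have h9 : ‖a₀ + a₁‖ ≤ 1 / 2 := (Padic.nonarchimedean _ _).trans (max_le h7 h8)
    rw [ha] at h9
    norm_num at h9
  have hnE : (n : E) ≠ 0 := by exact_mod_cast hn
  have hu'0 : u' ≠ 0 := by
    intro h0
    apply he0
    rw [he, h0, zero_pow hpp.ne_zero, mul_zero]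
  refine ⟨∑ i, Polynomial.C (g i) * X ^ (i : ℕ), n, hng p (hle p a₀ a₁ ha₀ ha₁ k1),
    hng q (hle q b₀ b₁ hb₀ hb₁ k2), ?_, fun P => ?_, map_eq h5 c e n g hg a₀ a₁ A₀ A₁ hA₀ hA₁ k1,
    map_eq h5 c e n g hg b₀ b₁ B₀ B₁ hB₀ hB₁ k2⟩
  · rw [hf]
    exact mul_ne_zero hnE he0
  · obtain ⟨m, hm⟩ := hord P
    obtain ⟨k, hk⟩ := mem_val_exp P u' hu'0
    refine ⟨m + k, ?_⟩
    rw [hf, map_mul, he, map_mul, map_pow, hm, hk, ← WithZero.exp_nsmul, ← WithZero.exp_add]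
    congr 2
    simp only [nsmul_eq_mul]
    ring

end

end Pool.Agent.K3h1.TF
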