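import Pool.Agent.K3h1.TF.Fin

/-!
# Project TF: double coverings with empty Brauer-Manin set
-/

set_option autoImplicit false

namespace Pool.Agent.K3h1.TF

open NumberField IsDedekindDomain Polynomial Pool.Agent.Y546.WQ Pool.Agent.K3h1.FC

theorem fm_scale (p r : ℕ) (hr : 3 ≤ r) (e : ℤ) {R : Type} [CommRing R] (s x y : R) :
    fm p r e (s * x) (s * y) = s ^ (r - 1) * fm p r e x y := by
  unfold fm
  have e1 : s ^ (r - 1) = s * s * s ^ (r - 3) := by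
    rw [mul_assoc, ← pow_succ', ← pow_succ']
    congr 1
    omega
  rw [mul_pow, mul_pow, mul_pow]
  linear_combination (-(((r * e : ℤ) : R) * (x * (x + y) * y ^ (r - 3)))) * e1

theorem no_points (p : ℕ) [hp : Fact p.Prime] (h5 : 5 ≤ p) (E : Type) [Field E] [NumberField E]
    (k : Cyc p E) (c : ℤ) (hc0 : c ≠ 0) (hcp : ¬ (p : ℤ) ∣ c)
    (hcq : ∀ q : ℕ, q.Prime → (q : ℤ) ∣ c → q % p ≠ 1) (hc1 : ¬ (p : ℤ) ^ 2 ∣ c ^ (p - 1) - 1)
    (r : ℕ) (hr : r.Prime) (hr5 : 5 ≤ r) (hrp : r ≠ p) (hW : ¬ p ^ 2 ∣ r ^ (p - 1) - 1)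
    (hrc : ¬ (r : ℤ) ∣ c) (hns : ¬ IsSquare ((ps p : ℤ) : ZMod r)) (e : ℤ)
    (v : ∀ r : Nat.Primes, Fin 3 → ℚ_[(r : ℕ)]) (hv : AdelicC p c v)
    (hF : ∀ q, ∃ w, w ^ 2 = fm p r e (v q 0) (v q 1)) : ¬ SurvivesC p c E v := by
  intro hs
  have hpp : p.Prime := hp.out
  have hro : Odd r := hr.odd_of_ne_two (by omega)
  obtain ⟨s, δ, D, hs0, hD⟩ := exists_datC hc0 hpp.ne_zero hv hs
  have hFs : ∀ q : Nat.Primes, ∃ w : ℚ_[(q : ℕ)], w ^ 2 = fm p r e (s q * v q 0) (s q * v q 1) := by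
    intro q
    obtain ⟨w, hw⟩ := hF q
    refine ⟨s q ^ ((r - 1) / 2) * w, ?_⟩
    rw [mul_pow, hw, ← pow_mul, fm_scale p r (by omega)]
    congr 2
    rw [Nat.odd_iff] at hro
    omega
  obtain ⟨R, rfl⟩ : ∃ R : Nat.Primes, (R : ℕ) = r := ⟨⟨r, hr⟩, rfl⟩
  have hne : ‖v R 0‖ ≠ ‖v R 1‖ := by
    intro h
    have h1 : ‖s R * v R 0‖ = ‖s R * v R 1‖ := by rw [norm_mul, norm_mul, h]
    obtain ⟨w, hw⟩ := hFs R
    have hx : ‖s R * v R 0‖ = 1 := by
      rcases hD.one R with h2 | h2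
      · exact h2
      · rw [h1]; exact h2
    have hy : ‖s R * v R 1‖ = 1 := by rw [← h1]; exact hx
    exact Pool.Agent.K3h20.TF.t_DISR p (R : ℕ) hr5 hns e _ _ w hx hy hw
  have hred := ((furt p h5 E k c hc0 hcp hcq v hv hs).2 hc1).2 R hrp hW hrc hne
  have hz : ‖s ⟨p, hp.out⟩ * v ⟨p, hp.out⟩ 2‖ < 1 := by
    have h2 := hred.1
    rw [← norm_scale_lt (hs0 ⟨p, hpp⟩)] at h2
    exact h2.trans_le (hD.x1 ⟨p, hpp⟩)
  obtain ⟨w, hw⟩ := hFs ⟨p, hp.out⟩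
  exact Pool.Agent.K3h20.TF.t_DISP p h5 (R : ℕ) hro hr5 c e _ _ _ w (hD.x1 ⟨p, hpp⟩)
    (hD.y1 ⟨p, hpp⟩) (hD.one ⟨p, hpp⟩) hz (hD.eq ⟨p, hpp⟩) hw

/-- the choice of the parameters and the local points -/
theorem exists_ex (p : ℕ) [hp : Fact p.Prime] (h5 : 5 ≤ p) : ∃ c r : ℕ, c.Prime ∧ p < c ∧
    c % p ≠ 1 ∧ ¬ (p : ℤ) ^ 2 ∣ (c : ℤ) ^ (p - 1) - 1 ∧ r.Prime ∧ p < r ∧ r ≠ c ∧
    ¬ p ^ 2 ∣ r ^ (p - 1) - 1 ∧ ¬ IsSquare ((ps p : ℤ) : ZMod r) ∧
    ∀ M : ℤ, ∃ e : ℤ, M < e ∧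
      (∀ (q : ℕ) [Fact q.Prime], ∃ x y z w : ℚ_[q], (x ≠ 0 ∨ y ≠ 0 ∨ z ≠ 0) ∧ w ≠ 0 ∧
        x ^ p + y ^ p = (c : ℤ) * z ^ p ∧ w ^ 2 = fm p r e x y) ∧
      ∃ x y z w : ℝ, (x ≠ 0 ∨ y ≠ 0 ∨ z ≠ 0) ∧ w ≠ 0 ∧
        x ^ p + y ^ p = (c : ℤ) * z ^ p ∧ w ^ 2 = fm p r e x y := by
  have hpp : p.Prime := hp.out
  have hodd := hpp.odd_of_ne_two (by omega : p ≠ 2)
  obtain ⟨u, hu0, hu1, hu2⟩ := Pool.Agent.K3h60.TF.t_UEX p hpp (by omega)
  obtain ⟨⟨c, t, hc, hpc, hc1, hcs, hpt, hcm⟩, r, hr, hpr, hrs, hrW⟩ :=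
    Pool.Agent.K3h73.TC.t_DIR p hpp h5 u hu0 hu1
  have hro : Odd r := hr.odd_of_ne_two (by omega)
  have hr1 : Even (r - 1) := Nat.Odd.sub_odd hro odd_one
  have hrc : r ≠ c := by
    rintro rfl
    exact hrs hcs
  have hns := Pool.Agent.K3h79.TF.t_LOC1p p hpp (by omega) r hr (by omega) (by omega) hrs
  have htZ : ¬ (p : ℤ) ∣ (t : ℤ) := by exact_mod_cast hpt
  have hpcZ : ¬ (p : ℤ) ∣ (c : ℤ) := by
    intro h
    have h1 : p ∣ c := by exact_mod_cast h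
    have := (Nat.prime_dvd_prime_iff_eq hpp hc).1 h1
    omega
  have hcm' : (p : ℤ) ^ 2 ∣ (c : ℤ) - (1 + (u : ℤ) ^ p) * (t : ℤ) ^ p := by
    have h1 := (Nat.modEq_iff_dvd).1 hcm.symm
    push_cast at h1
    exact h1
  have hcW : ¬ (p : ℤ) ^ 2 ∣ (c : ℤ) ^ (p - 1) - 1 := by
    intro h
    apply hu2
    have h1 : (((1 + u ^ p) ^ (p - 1) : ℕ) : ZMod (p ^ 2)) = 1 := by
      have e1 : ((c : ℤ) : ZMod (p ^ 2)) = (1 + (u : ZMod (p ^ 2)) ^ p) * (t : ZMod (p ^ 2)) ^ p := by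
        have h2 := (ZMod.intCast_zmod_eq_zero_iff_dvd ((c : ℤ) - (1 + (u : ℤ) ^ p) * (t : ℤ) ^ p)
          (p ^ 2)).2 (by exact_mod_cast hcm')
        push_cast at h2 ⊢
        exact sub_eq_zero.1 h2
      have e2 : ((c : ℤ) : ZMod (p ^ 2)) ^ (p - 1) = 1 := by
        have h2 := (ZMod.intCast_zmod_eq_zero_iff_dvd ((c : ℤ) ^ (p - 1) - 1) (p ^ 2)).2
          (by exact_mod_cast h)
        push_cast at h2 ⊢
        exact sub_eq_zero.1 h2
      have e3 : ((t : ZMod (p ^ 2)) ^ p) ^ (p - 1) = 1 := by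
        have hcop : Nat.Coprime t (p ^ 2) := by
          apply Nat.Coprime.pow_right
          exact ((Nat.Prime.coprime_iff_not_dvd hpp).2 hpt).symm
        have h3 := ZMod.pow_totient (ZMod.unitOfCoprime t hcop)
        have h4 := congrArg (fun a : (ZMod (p ^ 2))ˣ => (a : ZMod (p ^ 2))) h3
        simp only [Units.val_pow_eq_pow_val, ZMod.coe_unitOfCoprime, Units.val_one] at h4
        rw [Nat.totient_prime_pow hpp two_pos] at h4
        rw [← pow_mul]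
        simpa using h4
      rw [e1, mul_pow, e3, mul_one] at e2
      push_cast
      exact e2
    have h2 : ((((1 + u ^ p) ^ (p - 1) - 1 : ℕ)) : ZMod (p ^ 2)) = 0 := by
      rw [Nat.cast_sub (Nat.one_le_pow _ _ (by positivity)), h1]
      simp
    exact (ZMod.natCast_eq_zero_iff _ _).1 h2
  refine ⟨c, r, hc, hpc, hc1, hcW, hr, hpr, hrc, hrW, hns, fun M => ?_⟩
  -- the last parameter
  set κ : ZMod p := (r : ZMod p) * ((1 + (u : ZMod p)) * (u : ZMod p) ^ (r - 3)) with hκ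
  have hκ0 : κ ≠ 0 := by
    refine mul_ne_zero ?_ (mul_ne_zero ?_ (pow_ne_zero _ ?_))
    · rw [Ne, ZMod.natCast_eq_zero_iff]
      intro h
      have := (Nat.prime_dvd_prime_iff_eq hpp hr).1 h
      omega
    · intro h
      have h1 : ((1 + u : ℕ) : ZMod p) = 0 := by push_cast; exact h
      rw [ZMod.natCast_eq_zero_iff] at h1
      have := Nat.le_of_dvd (by omega) h1
      omega
    · rw [Ne, ZMod.natCast_eq_zero_iff]
      intro h
      have := Nat.le_of_dvd hu0 h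
      omega
  set e₀ : ZMod p := (2 - (u : ZMod p) ^ (r - 1)) / κ with he₀
  refine ⟨(e₀.val : ℤ) + p * (|M| + 1), ?_, ?_, ?_⟩
  · have h1 := le_abs_self M
    have h2 : (1 : ℤ) ≤ p := by exact_mod_cast hpp.one_le
    have h3 : (0 : ℤ) ≤ (e₀.val : ℤ) := by positivity
    nlinarith [abs_nonneg M]
  · intro q hq
    by_cases hqp : q = p
    · -- the place `p`
      subst hqp
      obtain ⟨z, hz0, hz⟩ := Pool.Agent.K3h4.TF.t_LOC3 q (by omega) (1 + (u : ℤ) ^ q) (c : ℤ)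
        (t : ℤ) hpcZ htZ hcm'
      set e : ℤ := (e₀.val : ℤ) + q * (|M| + 1) with he
      obtain ⟨w, hw0, hw⟩ := sq_odd' q (by omega) (fm q r e (1 : ℤ) (u : ℤ)) 1 (by
        rw [← ZMod.intCast_zmod_eq_zero_iff_dvd]
        have hee : ((e : ℤ) : ZMod q) = e₀ := by
          rw [he]
          push_cast
          rw [ZMod.natCast_zmod_val]
          simp
        have hps : ((ps q : ℤ) : ZMod q) = 0 := by
          rw [ZMod.intCast_zmod_eq_zero_iff_dvd]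
          unfold ps
          exact dvd_mul_left _ _
        unfold fm
        push_cast
        rw [hee, hps, one_pow]
        have h1 : e₀ * κ = 2 - (u : ZMod q) ^ (r - 1) := by
          rw [he₀, div_mul_cancel₀ _ hκ0]
        rw [hκ] at h1
        linear_combination -h1) (by
        intro h
        have h1 : (q : ℤ) ∣ ((1 : ℕ) : ℤ) := by exact_mod_cast h
        have h2 : q ∣ 1 := by exact_mod_cast h1
        exact hpp.one_lt.ne' (Nat.dvd_one.1 h2))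
      refine ⟨1, (u : ℚ_[q]), z, w, Or.inl one_ne_zero, hw0, ?_, ?_⟩
      · rw [one_pow, ← hz]
        push_cast
        ring
      · rw [hw]
        unfold fm
        push_cast
        simp
    by_cases hqs : IsSquare (q : ZMod p)
    · -- the rational point
      obtain ⟨w, hw0, hw⟩ := Pool.Agent.K3h79.TF.t_LOC1 p hpp (by omega) q hqp hqs
      refine ⟨1, -1, 0, w, Or.inl one_ne_zero, hw0, ?_, ?_⟩
      · rw [one_pow, hodd.neg_one_pow, zero_pow hpp.ne_zero]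
        ring
      · rw [hw]
        unfold fm
        rw [one_pow, hr1.neg_one_pow]
        push_cast
        ring
    · -- a point with first coordinate zero
      have hq1 : q % p ≠ 1 := by
        intro h
        apply hqs
        have h1 : (q : ZMod p) = 1 := by
          have h2 : ((q % p : ℕ) : ZMod p) = (q : ZMod p) := ZMod.natCast_mod q p
          rw [← h2, h]
          simp
        rw [h1]
        exact ⟨1, by ring⟩
      have hqc : ¬ (q : ℤ) ∣ (c : ℤ) := by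
        intro h
        have h1 : q ∣ c := by exact_mod_cast h
        have h2 := (Nat.prime_dvd_prime_iff_eq hq.out hc).1 h1
        exact hqs (by rw [h2]; exact hcs)
      obtain ⟨y, hy0, hy⟩ := Pool.Agent.K3h4.TF.t_LOC2 p hpp q hqp hq1 c hqc
      refine ⟨0, y, 1, y ^ ((r - 1) / 2), Or.inr (Or.inl hy0), pow_ne_zero _ hy0, ?_, ?_⟩
      · rw [zero_pow hpp.ne_zero, hy, one_pow]
        ring
      · unfold fm
        rw [← pow_mul, zero_pow (by omega : r - 1 ≠ 0)]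
        have h2 : (r - 1) / 2 * 2 = r - 1 := by
          rw [Nat.even_iff] at hr1
          omega
        rw [h2]
        ring
  · have hcR : (0 : ℝ) < c := by exact_mod_cast hc.pos
    refine ⟨0, (c : ℝ) ^ ((p : ℝ)⁻¹), 1, ((c : ℝ) ^ ((p : ℝ)⁻¹)) ^ ((r - 1) / 2),
      Or.inr (Or.inl (Real.rpow_pos_of_pos hcR _).ne'), pow_ne_zero _ (Real.rpow_pos_of_pos hcR _).ne',
      ?_, ?_⟩
    · rw [zero_pow hpp.ne_zero, Real.rpow_inv_natCast_pow hcR.le hpp.ne_zero, one_pow]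
      push_cast
      ring
    · unfold fm
      rw [← pow_mul, zero_pow (by omega : r - 1 ≠ 0)]
      have h2 : (r - 1) / 2 * 2 = r - 1 := by
        rw [Nat.even_iff] at hr1
        omega
      rw [h2]
      ring

end Pool.Agent.K3h1.TF
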