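import Pool.Agent.K3h1.TF.Main
import Pool.Agent.K3h1.FC.Fin
import Pool.Agent.K3h1.FC.Dbl2
import Pool.Agent.K3h73.TC.Dir
import Pool.Agent.K3h60.TF.UEX
import Pool.Agent.K3h79.TF.LOC1
import Pool.Agent.K3h4.TF.Loc
import Pool.Agent.K3h20.TF.Dis
import Pool.Agent.K3h91.TF.Cong
import Pool.Agent.K3h90.TF.Ratc
import Pool.Agent.K3h73.TC.Prodz
import Pool.Agent.K3h55.TF.CRIT2

/-!
# Project TF: assembly
-/

set_option autoImplicit false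

namespace Pool.Agent.K3h1.TF

open NumberField IsDedekindDomain Polynomial Pool.Agent.Y546.WQ Pool.Agent.K3h1.FC

open scoped TensorProduct

section

variable {p : ℕ} {E : Type} [Field E] [NumberField E]

/-- scaling -/
theorem LiftsC.scale {r : ℕ} [Fact r.Prime] {δ : E → E} {D : E} {x y z : ℚ_[r]}
    (h : LiftsC p r E δ D x y z) (s : ℚ_[r]) (hs : s ≠ 0) :
    LiftsC p r E δ D (s * x) (s * y) (s * z) := by
  obtain ⟨c, w, h1, h2⟩ := h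
  have hu : (s ⊗ₜ[ℚ] (1 : E) : Loc r E) * (s⁻¹ ⊗ₜ[ℚ] (1 : E)) = 1 := by
    rw [Algebra.TensorProduct.tmul_mul_tmul, mul_inv_cancel₀ hs, one_mul]
    rfl
  let S : (Loc r E)ˣ := ⟨s ⊗ₜ[ℚ] (1 : E), s⁻¹ ⊗ₜ[ℚ] (1 : E), hu, by rw [mul_comm]; exact hu⟩
  have hS : (S : Loc r E) = s ⊗ₜ[ℚ] (1 : E) := rfl
  have e1 : ∀ t : Loc r E, ((c * S⁻¹ : (Loc r E)ˣ) : Loc r E) * ((s ⊗ₜ[ℚ] (1 : E)) * t) =
      c * t := by
    intro t
    have e2 : ((S⁻¹ : (Loc r E)ˣ) : Loc r E) * (s ⊗ₜ[ℚ] (1 : E)) = 1 := by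
      rw [← hS, S.inv_mul]
    rw [Units.val_mul]
    linear_combination ((c : Loc r E) * t) * e2
  refine ⟨c * S⁻¹, w, fun ξ hξ => ?_, ?_⟩
  · rw [← h1 ξ hξ, ← e1]
    congr 1
    rw [mul_add, Algebra.TensorProduct.tmul_mul_tmul, Algebra.TensorProduct.tmul_mul_tmul,
      one_mul, one_mul]
  · rw [← h2, ← e1]
    congr 1
    rw [Algebra.TensorProduct.tmul_mul_tmul, one_mul]

/-- normalization -/
theorem exists_datC {c : ℤ} (hc0 : c ≠ 0) (hp0 : p ≠ 0) {v : ∀ r : Nat.Primes, Fin 3 → ℚ_[(r : ℕ)]}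
    (hv : AdelicC p c v) (h : SurvivesC p c E v) :
    ∃ (s : ∀ r : Nat.Primes, ℚ_[(r : ℕ)]) (δ : E → E) (D : E), (∀ r, s r ≠ 0) ∧
      DatC p c E (fun r => s r * v r 0) (fun r => s r * v r 1) (fun r => s r * v r 2) δ D := by
  have key : ∀ r : Nat.Primes, ∃ s : ℚ_[(r : ℕ)], s ≠ 0 ∧ ‖s * v r 0‖ ≤ 1 ∧ ‖s * v r 1‖ ≤ 1 ∧
      (‖s * v r 0‖ = 1 ∨ ‖s * v r 1‖ = 1) := by
    intro r
    have hne : v r 0 ≠ 0 ∨ v r 1 ≠ 0 := by
      by_contra hcon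
      rw [not_or, not_not, not_not] at hcon
      have h1 := hv.eq r
      rw [hcon.1, hcon.2, zero_pow hp0, add_zero] at h1
      have hcr : (c : ℚ_[(r : ℕ)]) ≠ 0 := by exact_mod_cast hc0
      have h2 : v r 2 = 0 := by
        have := (mul_eq_zero.1 h1.symm).resolve_left hcr
        exact (pow_eq_zero_iff hp0).1 this
      apply hv.ne r
      ext i
      fin_cases i
      · exact hcon.1
      · exact hcon.2
      · exact h2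
    rcases le_total ‖v r 0‖ ‖v r 1‖ with hle | hle
    · have h1 : v r 1 ≠ 0 := by
        rintro h0
        rw [h0, norm_zero] at hle
        exact hne.elim (fun h => h (norm_le_zero_iff.1 hle)) (fun h => h h0)
      have h2 : 0 < ‖v r 1‖ := norm_pos_iff.2 h1
      refine ⟨(v r 1)⁻¹, inv_ne_zero h1, ?_, ?_, ?_⟩
      · rw [norm_mul, norm_inv, inv_mul_le_one₀ h2]; exact hle
      · rw [norm_mul, norm_inv, inv_mul_cancel₀ h2.ne']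
      · right
        rw [norm_mul, norm_inv, inv_mul_cancel₀ h2.ne']
    · have h1 : v r 0 ≠ 0 := by
        rintro h0
        rw [h0, norm_zero] at hle
        exact hne.elim (fun h => h h0) (fun h => h (norm_le_zero_iff.1 hle))
      have h2 : 0 < ‖v r 0‖ := norm_pos_iff.2 h1
      refine ⟨(v r 0)⁻¹, inv_ne_zero h1, ?_, ?_, ?_⟩
      · rw [norm_mul, norm_inv, inv_mul_cancel₀ h2.ne']
      · rw [norm_mul, norm_inv, inv_mul_le_one₀ h2]; exact hle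
      · left
        rw [norm_mul, norm_inv, inv_mul_cancel₀ h2.ne']
  choose s hs0 hs1 hs2 hs3 using key
  obtain ⟨δ, D, hT, hL⟩ := h
  exact ⟨s, δ, D, hs0, hT, hs1, hs2, hs3, fun r => by
    rw [mul_pow, mul_pow, mul_pow, ← mul_add, hv.eq r]
    ring, fun r => (hL r).scale (s r) (hs0 r)⟩

end

section

variable {r : ℕ} [Fact r.Prime]

/-- The reduction modulo `r` of the point with homogeneous coordinates `u` is `(1 : -1 : 0)`. -/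
def Red0 (u : Fin 3 → ℚ_[r]) : Prop := ‖u 2‖ < ‖u 0‖ ∧ ‖u 0 + u 1‖ < ‖u 0‖

/-- The reduction modulo `r` of the point with homogeneous coordinates `u` is on the line `x = y`,
the two coordinates are not zero modulo `r`. -/
def Diag (u : Fin 3 → ℚ_[r]) : Prop := ‖u 0 - u 1‖ < ‖u 0‖

end

section

variable {p : ℕ} [Fact p.Prime]

theorem red_aux {c : ℤ} {x y z : ℚ_[p]} (hx : ‖x‖ ≤ 1) (hy : ‖y‖ ≤ 1) (h1 : ‖x‖ = 1 ∨ ‖y‖ = 1)
    (he : x ^ p + y ^ p = c * z ^ p) (hz : ‖z‖ < 1) : ‖x‖ = 1 ∧ ‖x + y‖ < 1 := by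
  have hpp : p.Prime := Fact.out
  have h2 : ‖x ^ p + y ^ p‖ < 1 := by
    rw [he, norm_mul, norm_pow]
    calc ‖(c : ℚ_[p])‖ * ‖z‖ ^ p ≤ 1 * ‖z‖ ^ p :=
          mul_le_mul_of_nonneg_right (Padic.norm_int_le_one c) (by positivity)
      _ < 1 := by
          rw [one_mul]
          exact pow_lt_one₀ (norm_nonneg _) hz hpp.ne_zero
  have h3 := norm_add_pow_sub x y hx hy
  have h4 : ‖x + y‖ < 1 := by
    rw [← norm_lt_one_of_pow _ p hpp.ne_zero]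
    exact norm_lt_of_close _ _ (by rwa [← norm_neg, neg_sub] at h3) h2
  refine ⟨?_, h4⟩
  rcases h1 with h1 | h1
  · exact h1
  · apply eq_one_of_not_lt hx
    intro h5
    have h6 := norm_sub_lt _ _ h4 h5
    rw [add_sub_cancel_left, h1] at h6
    exact lt_irrefl _ h6

end

/-- The theorems of Furtwängler for adelic points -/
theorem furt (p : ℕ) [hp : Fact p.Prime] (h5 : 5 ≤ p) (E : Type) [Field E] [NumberField E]
    (k : Cyc p E) (c : ℤ) (hc0 : c ≠ 0) (hcp : ¬ (p : ℤ) ∣ c)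
    (hcq : ∀ q : ℕ, q.Prime → (q : ℤ) ∣ c → q % p ≠ 1) (v : ∀ r : Nat.Primes, Fin 3 → ℚ_[(r : ℕ)])
    (hv : AdelicC p c v) (hs : SurvivesC p c E v) :
    (∀ r : Nat.Primes, (r : ℕ) ≠ p → ¬ p ^ 2 ∣ (r : ℕ) ^ (p - 1) - 1 →
      Red0 (v ⟨p, hp.out⟩) ∨
      (¬ ((r : ℕ) : ℤ) ∣ c → (‖v r 0‖ < ‖v r 1‖ → ‖v ⟨p, hp.out⟩ 0‖ < ‖v ⟨p, hp.out⟩ 1‖) ∧
        (‖v r 1‖ < ‖v r 0‖ → ‖v ⟨p, hp.out⟩ 1‖ < ‖v ⟨p, hp.out⟩ 0‖) ∧
        (Diag (v r) → Diag (v ⟨p, hp.out⟩))) ∧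
      (‖v r 0 + v r 1‖ < ‖v r 0‖ → Diag (v ⟨p, hp.out⟩))) ∧
    (¬ (p : ℤ) ^ 2 ∣ c ^ (p - 1) - 1 →
      (Red0 (v ⟨p, hp.out⟩) ∨
        Diag (v ⟨p, hp.out⟩) ∧ (p : ℤ) ^ 2 ∣ c ^ (p - 1) - 2 ^ (p - 1)) ∧
      ∀ r : Nat.Primes, (r : ℕ) ≠ p → ¬ p ^ 2 ∣ (r : ℕ) ^ (p - 1) - 1 →
        ¬ ((r : ℕ) : ℤ) ∣ c → ‖v r 0‖ ≠ ‖v r 1‖ → Red0 (v ⟨p, hp.out⟩)) := by
  have hpp : p.Prime := hp.out
  obtain ⟨s, δ, D, hs0, hD⟩ := exists_datC hc0 hpp.ne_zero hv hs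
  have hz1 := hD.z1 hpp.ne_zero ⟨p, hpp⟩ hcp
  -- the two cases at `p`
  have hcase : Red0 (v ⟨p, hp.out⟩) ∨ ‖s ⟨p, hpp⟩ * v ⟨p, hpp⟩ 2‖ = 1 := by
    by_cases hz : ‖s ⟨p, hpp⟩ * v ⟨p, hpp⟩ 2‖ < 1
    · left
      obtain ⟨h1, h2⟩ := red_aux (hD.x1 ⟨p, hpp⟩) (hD.y1 ⟨p, hpp⟩) (hD.one ⟨p, hpp⟩)
        (hD.eq ⟨p, hpp⟩) hz
      refine ⟨?_, ?_⟩
      · rw [← norm_scale_lt (hs0 ⟨p, hpp⟩), h1]
        exact hz
      · rw [← norm_scale_lt (hs0 ⟨p, hpp⟩), h1, mul_add]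
        exact h2
    · exact Or.inr (eq_one_of_not_lt hz1 hz)
  -- unscaling
  have hxlt : ∀ r : Nat.Primes, ‖s r * v r 0‖ < 1 ↔ ‖v r 0‖ < ‖v r 1‖ := by
    intro r
    rw [← norm_scale_lt (hs0 r)]
    constructor
    · intro h
      rcases hD.one r with h1 | h1
      · rw [h1] at h; exact absurd h (lt_irrefl _)
      · rw [h1]; exact h
    · intro h
      exact h.trans_le (hD.y1 r)
  have hylt : ∀ r : Nat.Primes, ‖s r * v r 1‖ < 1 ↔ ‖v r 1‖ < ‖v r 0‖ := by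
    intro r
    rw [← norm_scale_lt (hs0 r)]
    constructor
    · intro h
      rcases hD.one r with h1 | h1
      · rw [h1]; exact h
      · rw [h1] at h; exact absurd h (lt_irrefl _)
    · intro h
      exact h.trans_le (hD.x1 r)
  have hx_of : ∀ (r : Nat.Primes) (t : ℚ_[(r : ℕ)]), ‖t‖ < ‖v r 0‖ →
      (t = v r 0 + v r 1 ∨ t = v r 0 - v r 1) → ‖s r * t‖ < 1 := by
    intro r t h _
    rw [← norm_scale_lt (hs0 r)] at h
    exact h.trans_le (hD.x1 r)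
  -- the difference at `p`
  have hdiag : ‖s ⟨p, hpp⟩ * v ⟨p, hpp⟩ 0 - s ⟨p, hpp⟩ * v ⟨p, hpp⟩ 1‖ < 1 →
      Diag (v ⟨p, hp.out⟩) := by
    intro h
    have hx1 : ‖s ⟨p, hpp⟩ * v ⟨p, hpp⟩ 0‖ = 1 := by
      rcases hD.one ⟨p, hpp⟩ with h1 | h1
      · exact h1
      · apply eq_one_of_not_lt (hD.x1 ⟨p, hpp⟩)
        intro h2
        have h3 := norm_sub_lt _ _ h2 h
        rw [sub_sub_cancel, h1] at h3
        exact lt_irrefl _ h3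
    unfold Diag
    rw [← norm_scale_lt (hs0 ⟨p, hpp⟩), hx1, mul_sub]
    exact h
  have hA : ∀ r : Nat.Primes, (r : ℕ) ≠ p → ¬ p ^ 2 ∣ (r : ℕ) ^ (p - 1) - 1 →
      Red0 (v ⟨p, hp.out⟩) ∨
      (¬ ((r : ℕ) : ℤ) ∣ c → (‖v r 0‖ < ‖v r 1‖ → ‖v ⟨p, hp.out⟩ 0‖ < ‖v ⟨p, hp.out⟩ 1‖) ∧
        (‖v r 1‖ < ‖v r 0‖ → ‖v ⟨p, hp.out⟩ 1‖ < ‖v ⟨p, hp.out⟩ 0‖) ∧
        (Diag (v r) → Diag (v ⟨p, hp.out⟩))) ∧
      (‖v r 0 + v r 1‖ < ‖v r 0‖ → Diag (v ⟨p, hp.out⟩)) := by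
    intro r hrp hW
    rcases hcase with hc | hz
    · exact Or.inl hc
    right
    have hB : ‖s r * v r 0 + s r * v r 1‖ < 1 → Diag (v ⟨p, hp.out⟩) := fun h =>
      hdiag (hD.main2 Pool.Agent.K3h55.TF.t_CRIT2 Pool.Agent.K3h73.TC.t_PRODZ h5 k hc0 hcp hcq hz r
        hrp hW h)
    have hsum : ∀ a b : ℚ_[(r : ℕ)], ‖a‖ < 1 → ‖b‖ = 1 → ‖a + b‖ = 1 := by
      intro a b ha hb
      rw [Padic.add_eq_max_of_ne (by rw [hb]; exact ha.ne), hb]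
      exact max_eq_right ha.le
    refine ⟨fun hrc => ⟨fun h => ?_, fun h => ?_, fun h => ?_⟩, fun h => ?_⟩
    · have h1 := (hxlt r).2 h
      have h2 : ‖s r * v r 1‖ = 1 := by
        rcases hD.one r with h3 | h3
        · rw [h3] at h1; exact absurd h1 (lt_irrefl _)
        · exact h3
      exact (hxlt ⟨p, hpp⟩).1 ((hD.main1 Pool.Agent.K3h55.TF.t_CRIT2 h5 k hc0 hcp hcq hz r hrp hW hrc
        (hsum _ _ h1 h2)).1 h1)
    · have h1 := (hylt r).2 h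
      have h2 : ‖s r * v r 0‖ = 1 := by
        rcases hD.one r with h3 | h3
        · exact h3
        · rw [h3] at h1; exact absurd h1 (lt_irrefl _)
      exact (hylt ⟨p, hpp⟩).1 ((hD.main1 Pool.Agent.K3h55.TF.t_CRIT2 h5 k hc0 hcp hcq hz r hrp hW hrc
        (by rw [add_comm]; exact hsum _ _ h1 h2)).2.1 h1)
    · have h1 := hx_of r _ h (Or.inr rfl)
      rw [mul_sub] at h1
      by_cases h2 : ‖s r * v r 0 + s r * v r 1‖ < 1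
      · exact hB h2
      · have h3 : ‖s r * v r 0 + s r * v r 1‖ = 1 := eq_one_of_not_lt
          ((Padic.nonarchimedean _ _).trans (max_le (hD.x1 r) (hD.y1 r))) h2
        exact hdiag ((hD.main1 Pool.Agent.K3h55.TF.t_CRIT2 h5 k hc0 hcp hcq hz r hrp hW hrc h3).2.2
          h1)
    · have h1 := hx_of r _ h (Or.inl rfl)
      rw [mul_add] at h1
      exact hB h1
  refine ⟨hA, fun hc1 => ?_⟩
  -- congruences
  have hCg : ‖s ⟨p, hpp⟩ * v ⟨p, hpp⟩ 2‖ = 1 → _ := fun hz =>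
    Pool.Agent.K3h91.TF.t_CONG p (by omega) c _ _ _ (hD.x1 ⟨p, hpp⟩) (hD.y1 ⟨p, hpp⟩) hz hcp
      (hD.eq ⟨p, hpp⟩)
  refine ⟨?_, fun r hrp hW hrc hne => ?_⟩
  · rcases hcase with hc | hz
    · exact Or.inl hc
    obtain ⟨g1, g2, g3⟩ := hCg hz
    have heven : Even (p - 1) := by
      have := hpp.odd_of_ne_two (by omega)
      exact Nat.Odd.sub_odd this odd_one
    obtain ⟨q, hq, hqc, hqv, hqW⟩ := Pool.Agent.K3h91.TF.t_PRQ' p hpp c hc0 hcp hc1 heven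
    have hqp : q ≠ p := by
      rintro rfl
      exact hcp hqc
    have hqF : Fact q.Prime := ⟨hq⟩
    have hW : ¬ p ^ 2 ∣ q ^ (p - 1) - 1 := by
      intro h
      apply hqW
      have h1 : ((q ^ (p - 1) - 1 : ℕ) : ℤ) = (q : ℤ) ^ (p - 1) - 1 := by
        rw [Nat.cast_sub (Nat.one_le_pow _ _ hq.pos)]
        push_cast
        ring
      rw [← h1]
      exact_mod_cast h
    -- `q` divides `x + y`
    have hlt : ‖(s ⟨q, hq⟩ * v ⟨q, hq⟩ 0) ^ p + (s ⟨q, hq⟩ * v ⟨q, hq⟩ 1) ^ p‖ < 1 := by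
      have hle : ‖(s ⟨q, hq⟩ * v ⟨q, hq⟩ 0) ^ p + (s ⟨q, hq⟩ * v ⟨q, hq⟩ 1) ^ p‖ ≤ 1 := by
        refine (Padic.nonarchimedean _ _).trans (max_le ?_ ?_)
        · rw [norm_pow]; exact pow_le_one₀ (norm_nonneg _) (hD.x1 ⟨q, hq⟩)
        · rw [norm_pow]; exact pow_le_one₀ (norm_nonneg _) (hD.y1 ⟨q, hq⟩)
      refine lt_of_le_of_ne hle ?_
      intro h1
      have h2 := hD.eq ⟨q, hq⟩
      simp only at h2
      rw [h2] at h1
      have hcq0 : (c : ℚ_[q]) ≠ 0 := by exact_mod_cast hc0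
      have hzq0 : s ⟨q, hq⟩ * v ⟨q, hq⟩ 2 ≠ 0 := by
        intro h0
        rw [h0, zero_pow hpp.ne_zero, mul_zero, norm_zero] at h1
        exact zero_ne_one h1
      have h3 : ‖(c : ℚ_[q]) * (s ⟨q, hq⟩ * v ⟨q, hq⟩ 2) ^ p‖ =
          (q : ℝ) ^ (-((padicValInt q c : ℤ) + p * (s ⟨q, hq⟩ * v ⟨q, hq⟩ 2 : ℚ_[q]).valuation)) := by
        have h4 : (c : ℚ_[q]) * (s ⟨q, hq⟩ * v ⟨q, hq⟩ 2) ^ p ≠ 0 :=
          mul_ne_zero hcq0 (pow_ne_zero _ hzq0)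
        rw [Padic.norm_eq_zpow_neg_valuation h4, Padic.valuation_mul hcq0 (pow_ne_zero _ hzq0),
          Padic.valuation_pow, Padic.valuation_intCast]
      have h4 : (q : ℝ) ^ (-((padicValInt q c : ℤ) +
          p * (s ⟨q, hq⟩ * v ⟨q, hq⟩ 2 : ℚ_[q]).valuation)) = 1 := by
        rw [← h3]; exact h1
      have hq1 : (1 : ℝ) < q := by exact_mod_cast hq.one_lt
      have h5 : -((padicValInt q c : ℤ) +
          p * (s ⟨q, hq⟩ * v ⟨q, hq⟩ 2 : ℚ_[q]).valuation) = 0 := by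
        by_contra hne
        rcases lt_or_gt_of_ne hne with hlt | hgt
        · have := zpow_lt_one_of_neg₀ hq1 hlt
          rw [h4] at this
          exact lt_irrefl _ this
        · have := one_lt_zpow₀ hq1 hgt
          rw [h4] at this
          exact lt_irrefl _ this
      apply hqv
      have h6 : (p : ℤ) ∣ (padicValInt q c : ℤ) :=
        ⟨-(s ⟨q, hq⟩ * v ⟨q, hq⟩ 2 : ℚ_[q]).valuation, by linarith⟩
      exact_mod_cast h6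
    have hlt2 := Pool.Agent.K3h4.TF.t_SUM p hpp (by omega) q (hcq q hq hqc) _ _ (hD.x1 ⟨q, hq⟩)
      (hD.y1 ⟨q, hq⟩) hlt
    have h7 := hD.main2 Pool.Agent.K3h55.TF.t_CRIT2 Pool.Agent.K3h73.TC.t_PRODZ h5 k hc0 hcp hcq hz
      ⟨q, hq⟩ hqp hW hlt2
    exact Or.inr ⟨hdiag h7, g3 h7⟩
  · rcases hcase with hc | hz
    · exact hc
    exfalso
    obtain ⟨g1, g2, g3⟩ := hCg hz
    rcases hA r hrp hW with h1 | ⟨h1, _⟩
    · have h2 := h1.1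
      rw [← norm_scale_lt (hs0 ⟨p, hpp⟩), hz] at h2
      exact absurd (h2.trans_le (hD.x1 ⟨p, hpp⟩)) (lt_irrefl _)
    · obtain ⟨h2, h3, _⟩ := h1 hrc
      rcases lt_or_gt_of_ne hne with h4 | h4
      · exact hc1 (g1 ((hxlt ⟨p, hpp⟩).2 (h2 h4)))
      · exact hc1 (g2 ((hylt ⟨p, hpp⟩).2 (h3 h4)))

end Pool.Agent.K3h1.TF
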