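import Pool.Agent.K3h1.TF.Main3
import Pool.Agent.K3h1.TF.Dbl
import Pool.Agent.K3h91.TF.CRIT3
import Pool.Agent.K3h57.TF.Eta
import Pool.Agent.K3h27.TF.NP

/-!
# Project TF: assembly, Furtwängler's first theorem for all adelic points
-/

set_option autoImplicit false

namespace Pool.Agent.K3h1.TF

open NumberField IsDedekindDomain Polynomial Pool.Agent.Y546.WQ Pool.Agent.K3h1.FC

open scoped TensorProduct

/-- Furtwängler's first theorem for adelic points -/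
theorem furt1 (p : ℕ) [hp : Fact p.Prime] (h5 : 5 ≤ p) (E : Type) [Field E] [NumberField E]
    (k : Cyc p E) (c : ℤ) (hc0 : c ≠ 0) (hcp : ¬ (p : ℤ) ∣ c)
    (hcq : ∀ q : ℕ, q.Prime → (q : ℤ) ∣ c → q % p ≠ 1) (v : ∀ r : Nat.Primes, Fin 3 → ℚ_[(r : ℕ)])
    (hv : AdelicC p c v) (hs : SurvivesC p c E v) (r : Nat.Primes) (hrp : (r : ℕ) ≠ p)
    (hW : ¬ p ^ 2 ∣ (r : ℕ) ^ (p - 1) - 1) (hrc : ¬ ((r : ℕ) : ℤ) ∣ c) :
    (‖v r 0‖ < ‖v r 1‖ → ‖v ⟨p, hp.out⟩ 0‖ < ‖v ⟨p, hp.out⟩ 1‖) ∧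
    (‖v r 1‖ < ‖v r 0‖ → ‖v ⟨p, hp.out⟩ 1‖ < ‖v ⟨p, hp.out⟩ 0‖) ∧
    (¬ (p : ℤ) ^ 2 ∣ c ^ (p - 1) - 1 → ‖v r 0‖ = ‖v r 1‖) := by
  have hpp : p.Prime := hp.out
  have hF := furt p h5 E k c hc0 hcp hcq v hv hs
  obtain ⟨s, δ, D, hs0, hD⟩ := exists_datC hc0 hpp.ne_zero hv hs
  have hxlt : ∀ r : Nat.Primes, ‖s r * v r 0‖ < 1 ↔ ‖v r 0‖ < ‖v r 1‖ := by
    intro r
    rw [← norm_scale_lt (hs0 r)]
    constructor
    · intro h
      rcases hD.one r with h1 | h1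
      · rw [h1] at h; exact absurd h (lt_irrefl _)
      · rw [h1]; exact h
    · intro h
      exact h.trans_le (hD.y1 r)
  have hylt : ∀ r : Nat.Primes, ‖s r * v r 1‖ < 1 ↔ ‖v r 1‖ < ‖v r 0‖ := by
    intro r
    rw [← norm_scale_lt (hs0 r)]
    constructor
    · intro h
      rcases hD.one r with h1 | h1
      · rw [h1]; exact h
      · rw [h1] at h; exact absurd h (lt_irrefl _)
    · intro h
      exact h.trans_le (hD.x1 r)
  -- the second case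
  have h2nd : Red0 (v ⟨p, hp.out⟩) → ¬ ‖v r 0‖ < ‖v r 1‖ ∧ ¬ ‖v r 1‖ < ‖v r 0‖ := by
    intro hred
    have hz : ‖s ⟨p, hp.out⟩ * v ⟨p, hp.out⟩ 2‖ < 1 := by
      have h2 := hred.1
      rw [← norm_scale_lt (hs0 ⟨p, hpp⟩)] at h2
      exact h2.trans_le (hD.x1 ⟨p, hpp⟩)
    obtain ⟨h1, h2⟩ := hD.main3 Pool.Agent.K3h57.TF.t_ETA Pool.Agent.K3h27.TF.t_NP
      Pool.Agent.K3h91.TF.t_CRIT3 Pool.Agent.K3h73.TC.t_PRODZ h5 k hc0 hcq hz r hrp hW hrc
    exact ⟨fun h => h1 ((hxlt r).2 h), fun h => h2 ((hylt r).2 h)⟩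
  refine ⟨fun h => ?_, fun h => ?_, fun hc1 => ?_⟩
  · rcases hF.1 r hrp hW with h1 | ⟨h1, _⟩
    · exact absurd h (h2nd h1).1
    · exact (h1 hrc).1 h
  · rcases hF.1 r hrp hW with h1 | ⟨h1, _⟩
    · exact absurd h (h2nd h1).2
    · exact (h1 hrc).2.1 h
  · by_contra hne
    have hred := (hF.2 hc1).2 r hrp hW hrc hne
    obtain ⟨h1, h2⟩ := h2nd hred
    exact hne (le_antisymm (not_lt.1 h2) (not_lt.1 h1))

/-- the residue disc at `2` -/
theorem red_two (p : ℕ) (hp : p ≠ 0) (c : ℤ) (hc : ¬ ((2 : ℕ) : ℤ) ∣ c) (r : Nat.Primes)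
    (hr : (r : ℕ) = 2) (u : Fin 3 → ℚ_[(r : ℕ)]) (hu : u ≠ 0)
    (he : u 0 ^ p + u 1 ^ p = c * u 2 ^ p) (h : ‖u 0‖ = ‖u 1‖) : Red0 u := by
  obtain ⟨r, hrP⟩ := r
  simp only at hr
  subst hr
  have h0 : u 0 ≠ 0 := by
    intro h0
    have h1 : u 1 = 0 := by
      rw [h0, norm_zero] at h
      exact norm_eq_zero.1 h.symm
    have hc0 : (c : ℚ_[2]) ≠ 0 := by
      intro h2
      apply hc
      have h3 : c = 0 := by exact_mod_cast h2
      rw [h3]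
      exact dvd_zero _
    have h2 : u 2 = 0 := by
      rw [h0, h1, zero_pow hp, add_zero] at he
      exact (pow_eq_zero_iff hp).1 ((mul_eq_zero.1 he.symm).resolve_left hc0)
    apply hu
    ext i
    fin_cases i
    · exact h0
    · exact h1
    · exact h2
  have hn0 : 0 < ‖u 0‖ := norm_pos_iff.2 h0
  set s : ℚ_[2] := (u 0)⁻¹ with hs
  have hs0 : s ≠ 0 := inv_ne_zero h0
  have hx : ‖s * u 0‖ = 1 := by
    rw [norm_mul, hs, norm_inv, inv_mul_cancel₀ hn0.ne']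
  have hy : ‖s * u 1‖ = 1 := by
    rw [norm_mul, hs, norm_inv, ← h, inv_mul_cancel₀ hn0.ne']
  -- units of `ℤ_2` are `1` modulo `2`
  have key : ∀ a b : ℚ_[2], ‖a‖ = 1 → ‖b‖ = 1 → ‖a + b‖ < 1 := by
    intro a b ha hb
    have hab : ‖a + b‖ ≤ 1 := (Padic.nonarchimedean _ _).trans (max_le ha.le hb.le)
    rw [← rs_eq_zero _ hab, rs_add a b ha.le hb.le]
    have h1 : rs a ha.le ≠ 0 := by
      rw [Ne, rs_eq_zero, ha]
      exact lt_irrefl _
    have h2 : rs b hb.le ≠ 0 := by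
      rw [Ne, rs_eq_zero, hb]
      exact lt_irrefl _
    have hd : ∀ X Y : ZMod 2, X ≠ 0 → Y ≠ 0 → X + Y = 0 := by decide
    exact hd _ _ h1 h2
  have he' : (s * u 0) ^ p + (s * u 1) ^ p = c * (s * u 2) ^ p := by
    rw [mul_pow, mul_pow, mul_pow, ← mul_add, he]
    ring
  refine ⟨?_, ?_⟩
  · have h1 : ‖(c : ℚ_[2]) * (s * u 2) ^ p‖ < 1 := by
      rw [← he']
      apply key
      · rw [norm_pow, hx, one_pow]
      · rw [norm_pow, hy, one_pow]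
    rw [norm_mul, norm_int_one hc, one_mul, norm_pow] at h1
    have h2 := (pow_lt_one_iff_of_nonneg (norm_nonneg _) hp).1 h1
    rw [← norm_scale_lt hs0, hx]
    exact h2
  · rw [← norm_scale_lt hs0, hx, mul_add]
    exact key _ _ hx hy

/-- general double coverings without points over the Brauer-Manin set -/
theorem no_points2 (p : ℕ) [hp : Fact p.Prime] (h5 : 5 ≤ p) (E : Type) [Field E] [NumberField E]
    (k : Cyc p E) (c : ℤ) (hc0 : c ≠ 0) (hcp : ¬ (p : ℤ) ∣ c)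
    (hcq : ∀ q : ℕ, q.Prime → (q : ℤ) ∣ c → q % p ≠ 1) (hc1 : ¬ (p : ℤ) ^ 2 ∣ c ^ (p - 1) - 1)
    (r : Nat.Primes) (hrp : (r : ℕ) ≠ p) (hW : ¬ p ^ 2 ∣ (r : ℕ) ^ (p - 1) - 1)
    (hrc : ¬ ((r : ℕ) : ℤ) ∣ c) (m : ℕ) (g : MvPolynomial (Fin 2) ℤ) (hg : g.IsHomogeneous (2 * m))
    (hns : ∀ a b : ZMod (r : ℕ), a ≠ 0 → b ≠ 0 → ¬ IsSquare (MvPolynomial.aeval ![a, b] g))
    (v : ∀ r : Nat.Primes, Fin 3 → ℚ_[(r : ℕ)]) (hv : AdelicC p c v)
    (hF : ∃ w, w ^ 2 = MvPolynomial.aeval ![v r 0, v r 1] g) : ¬ SurvivesC p c E v := by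
  intro hs
  have hpp : p.Prime := hp.out
  have hne := (furt1 p h5 E k c hc0 hcp hcq v hv hs r hrp hW hrc).2.2 hc1
  obtain ⟨s, δ, D, hs0, hD⟩ := exists_datC hc0 hpp.ne_zero hv hs
  have h1 : ‖s r * v r 0‖ = ‖s r * v r 1‖ := by rw [norm_mul, norm_mul, hne]
  have hx : ‖s r * v r 0‖ = 1 := by
    rcases hD.one r with h2 | h2
    · exact h2
    · rw [h1]; exact h2
  have hy : ‖s r * v r 1‖ = 1 := by rw [← h1]; exact hx
  obtain ⟨w, hw⟩ := hF
  have hw' : (s r ^ m * w) ^ 2 = MvPolynomial.aeval ![s r * v r 0, s r * v r 1] g := by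
    have e1 : (![s r * v r 0, s r * v r 1] : Fin 2 → ℚ_[(r : ℕ)]) =
        s r • ![v r 0, v r 1] := by
      ext i
      fin_cases i <;> rfl
    have e3 : MvPolynomial.aeval (s r • ![v r 0, v r 1]) g =
        s r ^ (2 * m) * MvPolynomial.aeval ![v r 0, v r 1] g := by
      rw [MvPolynomial.aeval_def, MvPolynomial.aeval_def, MvPolynomial.eval₂_eq, MvPolynomial.eval₂_eq,
        Finset.mul_sum]
      refine Finset.sum_congr rfl fun d hd => ?_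
      have hdeg : ∑ i, d i = 2 * m := by
        have h3 := hg (MvPolynomial.mem_support_iff.1 hd)
        rw [Finsupp.weight_apply, Finsupp.sum_fintype _ _ (by simp)] at h3
        simpa using h3
      have e4 : ∏ i ∈ d.support, (s r • ![v r 0, v r 1]) i ^ d i =
          s r ^ (2 * m) * ∏ i ∈ d.support, ![v r 0, v r 1] i ^ d i := by
        simp only [Pi.smul_apply, smul_eq_mul, mul_pow, Finset.prod_mul_distrib]
        congr 1
        rw [Finset.prod_pow_eq_pow_sum, ← hdeg]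
        congr 1
        exact Finset.sum_subset (Finset.subset_univ _) fun i _ hi => Finsupp.notMem_support_iff.1 hi
      rw [e4]
      ring
    rw [e1, e3, ← hw, mul_pow, ← pow_mul, mul_comm m 2]
  -- reduction modulo `r`
  let X : ℤ_[(r : ℕ)] := mkI _ hx.le
  let Y : ℤ_[(r : ℕ)] := mkI _ hy.le
  set G : ℤ_[(r : ℕ)] := MvPolynomial.aeval ![X, Y] g with hG
  have hGv : (G : ℚ_[(r : ℕ)]) = MvPolynomial.aeval ![s r * v r 0, s r * v r 1] g := by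
    have e0 : (G : ℚ_[(r : ℕ)]) = PadicInt.Coe.ringHom G := rfl
    rw [e0, hG, MvPolynomial.aeval_def, MvPolynomial.aeval_def, MvPolynomial.hom_eval₂]
    congr 1
    ext i
    fin_cases i <;> rfl
  have hw1 : ‖s r ^ m * w‖ ≤ 1 := by
    have h2 : ‖(s r ^ m * w) ^ 2‖ ≤ 1 := by
      rw [hw', ← hGv]
      exact PadicInt.norm_le_one G
    rw [norm_pow] at h2
    exact (pow_le_one_iff_of_nonneg (norm_nonneg _) two_ne_zero).1 h2
  have h3 : (mkI _ hw1) ^ 2 = G := Subtype.ext (by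
    have e1 : (((mkI _ hw1) ^ 2 : ℤ_[(r : ℕ)]) : ℚ_[(r : ℕ)]) = (s r ^ m * w) ^ 2 := rfl
    rw [e1, hw', ← hGv])
  have h4 := congrArg (PadicInt.toZMod (p := (r : ℕ))) h3
  have h5 : PadicInt.toZMod (p := (r : ℕ)) G =
      MvPolynomial.aeval ![PadicInt.toZMod X, PadicInt.toZMod Y] g := by
    rw [hG, MvPolynomial.aeval_def, MvPolynomial.aeval_def, MvPolynomial.hom_eval₂]
    congr 1
    · exact RingHom.ext_int _ _
    · ext i
      fin_cases i <;> rfl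
  have hX0 : PadicInt.toZMod X ≠ 0 := by
    intro h0
    have := (rs_eq_zero _ hx.le).1 h0
    rw [hx] at this
    exact lt_irrefl _ this
  have hY0 : PadicInt.toZMod Y ≠ 0 := by
    intro h0
    have := (rs_eq_zero _ hy.le).1 h0
    rw [hy] at this
    exact lt_irrefl _ this
  apply hns _ _ hX0 hY0
  rw [← h5, ← h4, map_pow]
  exact ⟨_, sq _⟩

end Pool.Agent.K3h1.TF
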