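import Pool.Agent.K3h1.TF.Core

/-!
# Project TF: the criteria for adelic points of the curve `x ^ p + y ^ p = c z ^ p`
-/

set_option autoImplicit false

namespace Pool.Agent.K3h1.TF

open NumberField IsDedekindDomain Polynomial Pool.Agent.Y546.WQ Pool.Agent.K3h1.FC

open scoped TensorProduct

section local_

variable {r : ℕ} [Fact r.Prime]

theorem norm_int_one {c : ℤ} (hc : ¬ (r : ℤ) ∣ c) : ‖(c : ℚ_[r])‖ = 1 := by
  apply eq_one_of_not_lt (Padic.norm_int_le_one c)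
  rw [Padic.norm_intCast_lt_one_iff]
  exact hc

/-- approximation of the quotients -/
theorem approxC {c : ℤ} (hc : ¬ (r : ℤ) ∣ c) (x y : ℚ_[r]) (hx : ‖x‖ ≤ 1) (hy : ‖y‖ ≤ 1)
    (hxy : ‖x + y‖ = 1) : ‖c * x / (x + y)‖ ≤ 1 ∧ ‖c * y / (x + y)‖ ≤ 1 ∧
      ‖c * x / (x + y) + c * y / (x + y)‖ = 1 ∧ ∃ A₀ A₁ : ℤ,
      ‖c * x / (x + y) - (A₀ : ℚ_[r])‖ < 1 ∧
      ‖c * y / (x + y) - (A₁ : ℚ_[r])‖ < 1 ∧ (A₀ : ZMod r) + (A₁ : ZMod r) = (c : ZMod r) ∧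
      ((A₀ : ZMod r) = 0 ↔ ‖x‖ < 1) ∧ ((A₁ : ZMod r) = 0 ↔ ‖y‖ < 1) ∧
      ((A₀ : ZMod r) = (A₁ : ZMod r) ↔ ‖x - y‖ < 1) := by
  have hc1 := norm_int_one hc
  have hne : x + y ≠ 0 := by
    intro h
    rw [h, norm_zero] at hxy
    exact zero_ne_one hxy
  have h1 : ‖c * x / (x + y)‖ = ‖x‖ := by rw [norm_div, hxy, div_one, norm_mul, hc1, one_mul]
  have h2 : ‖c * y / (x + y)‖ = ‖y‖ := by rw [norm_div, hxy, div_one, norm_mul, hc1, one_mul]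
  have h3 : c * x / (x + y) + c * y / (x + y) = c := by
    rw [← add_div, ← mul_add, mul_div_assoc, div_self hne, mul_one]
  obtain ⟨A₀, hA₀⟩ := approxInt ((c : ℚ_[r]) * x / (x + y)) (by rw [h1]; exact hx) 1 one_pos
  obtain ⟨A₁, hA₁⟩ := approxInt ((c : ℚ_[r]) * y / (x + y)) (by rw [h2]; exact hy) 1 one_pos
  refine ⟨by rw [h1]; exact hx, by rw [h2]; exact hy, by rw [h3]; exact hc1, A₀, A₁, hA₀, hA₁,
    ?_, ?_, ?_, ?_⟩
  · have h4 : ((A₀ + A₁ - c : ℤ) : ZMod r) = 0 := by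
      rw [intCast_eq_zero_iff_norm]
      have e : ((A₀ + A₁ - c : ℤ) : ℚ_[r]) = -((c * x / (x + y) - (A₀ : ℚ_[r])) +
          (c * y / (x + y) - (A₁ : ℚ_[r]))) := by
        push_cast
        linear_combination h3
      rw [e, norm_neg]
      exact norm_add_lt _ _ hA₀ hA₁
    push_cast at h4
    linear_combination h4
  · rw [intCast_eq_zero_iff_norm, ← norm_lt_iff_of_close _ _ hA₀, h1]
  · rw [intCast_eq_zero_iff_norm, ← norm_lt_iff_of_close _ _ hA₁, h2]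
  · have h4 : (A₀ : ZMod r) = (A₁ : ZMod r) ↔ ((A₀ - A₁ : ℤ) : ZMod r) = 0 := by
      push_cast
      exact sub_eq_zero.symm
    have h5 : ‖(c * x / (x + y) - c * y / (x + y)) - ((A₀ - A₁ : ℤ) : ℚ_[r])‖ < 1 := by
      have e : (c * x / (x + y) - c * y / (x + y)) - ((A₀ - A₁ : ℤ) : ℚ_[r]) =
          (c * x / (x + y) - (A₀ : ℚ_[r])) - (c * y / (x + y) - (A₁ : ℚ_[r])) := by
        push_cast
        ring
      rw [e]
      exact norm_sub_lt _ _ hA₀ hA₁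
    rw [h4, intCast_eq_zero_iff_norm, ← norm_lt_iff_of_close _ _ h5, ← sub_div, ← mul_sub, norm_div,
      hxy, div_one, norm_mul, hc1, one_mul]

/-- the cofactor of `x + y` in `x ^ p + y ^ p` is a unit -/
theorem cof_unit {p : ℕ} (hp : p.Prime) (hrp : r ≠ p) {x y : ℚ_[r]} (hx : ‖x‖ ≤ 1) (hy : ‖y‖ ≤ 1)
    (hx1 : ‖x‖ = 1) (h : ‖x + y‖ < 1) :
    ‖∑ i ∈ Finset.range p, x ^ i * (-y) ^ (p - 1 - i)‖ = 1 := by
  have hr : r.Prime := Fact.out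
  have hny : ‖-y‖ ≤ 1 := by rwa [norm_neg]
  let X : ℤ_[r] := ⟨x, hx⟩
  let Y : ℤ_[r] := ⟨-y, hny⟩
  have hXY : PadicInt.toZMod X = PadicInt.toZMod Y := by
    rw [← sub_eq_zero, ← map_sub]
    have h2 : PadicInt.toZMod (X - Y) = 0 ↔ X - Y ∈ RingHom.ker (PadicInt.toZMod (p := r)) :=
      Iff.rfl
    rw [h2, PadicInt.ker_toZMod, IsLocalRing.mem_maximalIdeal, PadicInt.mem_nonunits,
      PadicInt.norm_def]
    change ‖x - -y‖ < 1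
    rwa [sub_neg_eq_add]
  have hX0 : PadicInt.toZMod X ≠ 0 := by
    intro h3
    have h2 : PadicInt.toZMod X = 0 ↔ X ∈ RingHom.ker (PadicInt.toZMod (p := r)) := Iff.rfl
    rw [h2, PadicInt.ker_toZMod, IsLocalRing.mem_maximalIdeal, PadicInt.mem_nonunits,
      PadicInt.norm_def] at h3
    change ‖x‖ < 1 at h3
    linarith
  set N : ℤ_[r] := ∑ i ∈ Finset.range p, X ^ i * Y ^ (p - 1 - i) with hN
  have hNv : (N : ℚ_[r]) = ∑ i ∈ Finset.range p, x ^ i * (-y) ^ (p - 1 - i) := by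
    have e0 : (N : ℚ_[r]) = PadicInt.Coe.ringHom N := rfl
    rw [e0, hN, map_sum]
    refine Finset.sum_congr rfl fun i _ => ?_
    rw [map_mul, map_pow, map_pow]
    rfl
  rw [← hNv, ← PadicInt.norm_def]
  have h4 : PadicInt.toZMod N ≠ 0 := by
    rw [hN, map_sum]
    have e : ∑ i ∈ Finset.range p, PadicInt.toZMod (X ^ i * Y ^ (p - 1 - i)) =
        ∑ i ∈ Finset.range p, (PadicInt.toZMod X) ^ (p - 1) := by
      refine Finset.sum_congr rfl fun i hi => ?_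
      rw [map_mul, map_pow, map_pow, ← hXY, ← pow_add]
      congr 1
      have := Finset.mem_range.1 hi
      omega
    rw [e, Finset.sum_const, Finset.card_range, nsmul_eq_mul]
    refine mul_ne_zero ?_ (pow_ne_zero _ hX0)
    rw [Ne, ZMod.natCast_eq_zero_iff]
    intro h5
    exact hrp ((Nat.prime_dvd_prime_iff_eq hr hp).1 h5)
  by_contra hne
  apply h4
  have h2 : PadicInt.toZMod N = 0 ↔ N ∈ RingHom.ker (PadicInt.toZMod (p := r)) := Iff.rfl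
  rw [h2, PadicInt.ker_toZMod, IsLocalRing.mem_maximalIdeal, PadicInt.mem_nonunits]
  exact lt_of_le_of_ne (PadicInt.norm_le_one N) hne

end local_

section

variable {p : ℕ} [Fact p.Prime] {E : Type} [Field E] [NumberField E]

/-- the data of a normalized adelic point lifting to a twist -/
structure DatC (p : ℕ) (c : ℤ) (E : Type) [Field E] [NumberField E]
    (x y z : ∀ r : Nat.Primes, ℚ_[(r : ℕ)]) (δ : E → E) (D : E) : Prop where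
  twist : TwistC p c E δ D
  x1 : ∀ r, ‖x r‖ ≤ 1
  y1 : ∀ r, ‖y r‖ ≤ 1
  one : ∀ r, ‖x r‖ = 1 ∨ ‖y r‖ = 1
  eq : ∀ r, x r ^ p + y r ^ p = c * z r ^ p
  lifts : ∀ r : Nat.Primes, LiftsC p (r : ℕ) E δ D (x r) (y r) (z r)

variable {c : ℤ} {x y z : ∀ r : Nat.Primes, ℚ_[(r : ℕ)]} {δ : E → E} {D : E}

omit [Fact p.Prime] in
theorem DatC.z1 (h : DatC p c E x y z δ D) (hp0 : p ≠ 0) (r : Nat.Primes)
    (hc : ¬ ((r : ℕ) : ℤ) ∣ c) : ‖z r‖ ≤ 1 := by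
  have h1 := norm_int_one hc
  have h2 : ‖(c : ℚ_[(r : ℕ)]) * z r ^ p‖ ≤ 1 := by
    rw [← h.eq r]
    refine (Padic.nonarchimedean _ _).trans (max_le ?_ ?_)
    · rw [norm_pow]; exact pow_le_one₀ (norm_nonneg _) (h.x1 r)
    · rw [norm_pow]; exact pow_le_one₀ (norm_nonneg _) (h.y1 r)
  rw [norm_mul, h1, one_mul, norm_pow] at h2
  exact (pow_le_one_iff_of_nonneg (norm_nonneg _) hp0).1 h2

theorem sum_unit' {c : ℤ} {x y z : ℚ_[p]} (hx : ‖x‖ ≤ 1) (hy : ‖y‖ ≤ 1) (hc : ¬ (p : ℤ) ∣ c)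
    (he : x ^ p + y ^ p = c * z ^ p) (hz : ‖z‖ = 1) : ‖x + y‖ = 1 := by
  have hpp : p.Prime := Fact.out
  apply eq_one_of_not_lt ((Padic.nonarchimedean _ _).trans (max_le hx hy))
  intro h2
  have h3 := norm_add_pow_sub x y hx hy
  have h4 : ‖x ^ p + y ^ p‖ < 1 := norm_lt_of_close _ _ h3
    ((norm_lt_one_of_pow _ p hpp.ne_zero).2 h2)
  rw [he, norm_mul, norm_int_one hc, one_mul, norm_pow, hz, one_pow] at h4
  exact lt_irrefl _ h4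

theorem DatC.sum_unit (h : DatC p c E x y z δ D) (hc : ¬ (p : ℤ) ∣ c)
    (hz : ‖z ⟨p, Fact.out⟩‖ = 1) : ‖x ⟨p, Fact.out⟩ + y ⟨p, Fact.out⟩‖ = 1 :=
  sum_unit' (h.x1 ⟨p, Fact.out⟩) (h.y1 ⟨p, Fact.out⟩) hc (h.eq ⟨p, Fact.out⟩) hz

theorem DatC.hord (h5 : 5 ≤ p) (k : Cyc p E) (h : DatC p c E x y z δ D) (hc0 : c ≠ 0)
    (hcp : ¬ (p : ℤ) ∣ c) (hcq : ∀ q : ℕ, q.Prime → (q : ℤ) ∣ c → q % p ≠ 1)
    (hz : ‖z ⟨p, Fact.out⟩‖ = 1) (P : HeightOneSpectrum (𝓞 E)) :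
    ∃ m : ℤ, P.valuation E ((c : E) * (δ k.z / δ 1)) = WithZero.exp ((p : ℤ) * m) := by
  obtain ⟨r, hr, hP⟩ := exists_prime_mem P
  have : Fact r.Prime := ⟨hr⟩
  have hcase : (r = p ∧ ‖x ⟨r, hr⟩ + y ⟨r, hr⟩‖ = 1) ∨
      (r ≠ p ∧ (¬ (r : ℤ) ∣ c ∨ r % p ≠ 1)) := by
    by_cases hrp : r = p
    · left
      refine ⟨hrp, ?_⟩
      subst hrp
      exact h.sum_unit hcp hz
    · right
      refine ⟨hrp, ?_⟩
      by_cases hrc : (r : ℤ) ∣ c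
      · exact Or.inr (hcq r hr hrc)
      · exact Or.inl hrc
  exact ordC (r := r) (by omega) k P hP δ D h.twist (x ⟨r, hr⟩) (y ⟨r, hr⟩) (z ⟨r, hr⟩)
    (h.x1 ⟨r, hr⟩) (h.y1 ⟨r, hr⟩) (h.one ⟨r, hr⟩) (h.lifts ⟨r, hr⟩) hcase hc0

/-- application of the criteria -/
theorem crit_use (hCR : S_CRIT2) (h5 : 5 ≤ p) (k : Cyc p E) (f : ℤ[X]) (n : ℤ)
    (hpn : ¬ (p : ℤ) ∣ n) (hf0 : aeval k.z f ≠ 0)
    (hv : ∀ P : HeightOneSpectrum (𝓞 E), ∃ m : ℤ, P.valuation E (aeval k.z f) =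
        P.valuation E ((n : ℤ) : E) * WithZero.exp ((p : ℤ) * m))
    (a₀ a₁ cc : ZMod p) (hcc : cc ≠ 0) (hA : a₀ + a₁ = cc)
    (hf : f.map (Int.castRingHom (ZMod p)) = Polynomial.C (n : ZMod p) *
        (Polynomial.C a₀ + Polynomial.C a₁ * X))
    (q : ℕ) [Fact q.Prime] (hqp : q ≠ p) (hqn : ¬ (q : ℤ) ∣ n)
    (hW : ¬ p ^ 2 ∣ q ^ (p - 1) - 1) (b B₀ B₁ : ZMod q) (hb : b ≠ 0)
    (hfq : f.map (Int.castRingHom (ZMod q)) = Polynomial.C b *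
      (Polynomial.C B₀ + Polynomial.C B₁ * X)) :
    (B₀ = 0 ∧ B₁ = 1 → a₀ = 0) ∧ (B₀ = 1 ∧ B₁ = 0 → a₁ = 0) ∧ (B₀ = 1 ∧ B₁ = 1 → a₀ = a₁) ∧
      (B₀ = 1 ∧ B₁ = -1 → a₀ = a₁) := by
  have hn0 : (n : ZMod p) ≠ 0 := by
    rw [Ne, ZMod.intCast_zmod_eq_zero_iff_dvd]
    exact hpn
  have e : f.map (Int.castRingHom (ZMod p)) = Polynomial.C ((n : ZMod p) * cc) *
        (Polynomial.C (a₀ / cc) + Polynomial.C (a₁ / cc) * X) := by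
    rw [hf, mul_add, mul_add, ← mul_assoc, ← mul_assoc, ← C_mul, ← C_mul, ← C_mul, ← C_mul,
      mul_assoc, mul_assoc, mul_div_cancel₀ _ hcc, mul_div_cancel₀ _ hcc]
  have hA' : a₀ / cc + a₁ / cc = 1 := by rw [← add_div, hA, div_self hcc]
  obtain ⟨h1, h2, h3, h4⟩ := hCR p h5 E k f n hpn ((n : ZMod p) * cc) (a₀ / cc) (a₁ / cc)
    (mul_ne_zero hn0 hcc) hA' e hf0 hv q hqp hqn hW b B₀ B₁ hb hfq
  refine ⟨fun h => ?_, fun h => ?_, fun h => ?_, fun h => ?_⟩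
  · exact (div_eq_zero_iff.1 (h1 h)).resolve_right hcc
  · exact (div_eq_zero_iff.1 (h2 h)).resolve_right hcc
  · exact (div_left_inj' hcc).1 (h3 h)
  · exact (div_left_inj' hcc).1 (h4 h)

/-- Furtwängler's theorems for adelic points, the case that `q` does not divide `x + y` -/
theorem DatC.main1 (hCR : S_CRIT2) (h5 : 5 ≤ p) (k : Cyc p E)
    (h : DatC p c E x y z δ D) (hc0 : c ≠ 0)
    (hcp : ¬ (p : ℤ) ∣ c) (hcq : ∀ q : ℕ, q.Prime → (q : ℤ) ∣ c → q % p ≠ 1)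
    (hz : ‖z ⟨p, Fact.out⟩‖ = 1) (q : Nat.Primes) (hqp : (q : ℕ) ≠ p)
    (hW : ¬ p ^ 2 ∣ (q : ℕ) ^ (p - 1) - 1) (hqc : ¬ ((q : ℕ) : ℤ) ∣ c) (hxy : ‖x q + y q‖ = 1) :
    (‖x q‖ < 1 → ‖x ⟨p, Fact.out⟩‖ < 1) ∧ (‖y q‖ < 1 → ‖y ⟨p, Fact.out⟩‖ < 1) ∧
    (‖x q - y q‖ < 1 → ‖x ⟨p, Fact.out⟩ - y ⟨p, Fact.out⟩‖ < 1) := by
  have hpp : p.Prime := Fact.out
  have hs := h.sum_unit hcp hz
  have hne : x ⟨p, hpp⟩ + y ⟨p, hpp⟩ ≠ 0 := by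
    intro h0
    rw [h0, norm_zero] at hs
    exact zero_ne_one hs
  have hneq : x q + y q ≠ 0 := by
    intro h0
    rw [h0, norm_zero] at hxy
    exact zero_ne_one hxy
  obtain ⟨u, hu⟩ := ratioC k δ D h.twist _ _ _ hne (h.lifts ⟨p, hpp⟩)
  obtain ⟨v, hv⟩ := ratioC k δ D h.twist _ _ _ hneq (h.lifts q)
  obtain ⟨k0, k1, k2, A₀, A₁, hA₀, hA₁, hA, i0, i1, i2⟩ :=
    approxC hcp _ _ (h.x1 ⟨p, hpp⟩) (h.y1 ⟨p, hpp⟩) hs
  obtain ⟨l0, l1, l2, B₀, B₁, hB₀, hB₁, hB, j0, j1, j2⟩ := approxC hqc _ _ (h.x1 q) (h.y1 q) hxy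
  obtain ⟨f, n, hpn, hqn, hf0, hval, hf, hfq⟩ := coreC Pool.Agent.K3h97.FC.WA.main h5 k
    ((c : E) * (δ k.z / δ 1)) (h.hord h5 k hc0 hcp hcq hz) _ _ k0 k1 k2 u hu (q : ℕ) hqp _ _ l0 l1
    v hv A₀ A₁ B₀ B₁ hA₀ hA₁ hB₀ hB₁
  have hcc : (c : ZMod p) ≠ 0 := by
    rw [Ne, ZMod.intCast_zmod_eq_zero_iff_dvd]
    exact hcp
  have hcq' : (c : ZMod (q : ℕ)) ≠ 0 := by
    rw [Ne, ZMod.intCast_zmod_eq_zero_iff_dvd]
    exact hqc
  have hnq : (n : ZMod (q : ℕ)) ≠ 0 := by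
    rw [Ne, ZMod.intCast_zmod_eq_zero_iff_dvd]
    exact hqn
  refine ⟨fun h1 => ?_, fun h1 => ?_, fun h1 => ?_⟩
  · have hb0 : (B₀ : ZMod (q : ℕ)) = 0 := j0.2 h1
    rw [hb0, zero_add] at hB
    rw [hb0, hB] at hfq
    have e : f.map (Int.castRingHom (ZMod (q : ℕ))) =
        Polynomial.C ((n : ZMod (q : ℕ)) * (c : ZMod (q : ℕ))) *
        (Polynomial.C 0 + Polynomial.C 1 * X) := by
      rw [hfq]
      simp only [map_zero, zero_add, map_one, one_mul, C_mul, mul_assoc]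
    exact i0.1 ((crit_use hCR h5 k f n hpn hf0 hval _ _ _ hcc hA hf (q : ℕ) hqp hqn hW _ 0 1
      (mul_ne_zero hnq hcq') e).1 ⟨rfl, rfl⟩)
  · have hb0 : (B₁ : ZMod (q : ℕ)) = 0 := j1.2 h1
    rw [hb0, add_zero] at hB
    rw [hb0, hB] at hfq
    have e : f.map (Int.castRingHom (ZMod (q : ℕ))) =
        Polynomial.C ((n : ZMod (q : ℕ)) * (c : ZMod (q : ℕ))) *
        (Polynomial.C 1 + Polynomial.C 0 * X) := by
      rw [hfq]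
      simp only [map_zero, zero_mul, add_zero, map_one, mul_one, C_mul]
    exact i1.1 ((crit_use hCR h5 k f n hpn hf0 hval _ _ _ hcc hA hf (q : ℕ) hqp hqn hW _ 1 0
      (mul_ne_zero hnq hcq') e).2.1 ⟨rfl, rfl⟩)
  · have hb0 : (B₀ : ZMod (q : ℕ)) = (B₁ : ZMod (q : ℕ)) := j2.2 h1
    rw [hb0] at hB
    rw [hb0] at hfq
    have hb1 : (B₁ : ZMod (q : ℕ)) ≠ 0 := by
      intro h0
      rw [h0, add_zero] at hB
      exact hcq' hB.symm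
    have e : f.map (Int.castRingHom (ZMod (q : ℕ))) =
        Polynomial.C ((n : ZMod (q : ℕ)) * (B₁ : ZMod (q : ℕ))) *
        (Polynomial.C 1 + Polynomial.C 1 * X) := by
      rw [hfq]
      simp only [map_one, one_mul, C_mul]
      ring
    exact i2.1 ((crit_use hCR h5 k f n hpn hf0 hval _ _ _ hcc hA hf (q : ℕ) hqp hqn hW _ 1 1
      (mul_ne_zero hnq hb1) e).2.2.1 ⟨rfl, rfl⟩)

/-- Furtwängler's theorems for adelic points, the case that `q` divides `x + y` -/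
theorem DatC.main2 (hCR : S_CRIT2) (hPR : S_PRODZ) (h5 : 5 ≤ p) (k : Cyc p E)
    (h : DatC p c E x y z δ D) (hc0 : c ≠ 0)
    (hcp : ¬ (p : ℤ) ∣ c) (hcq : ∀ q : ℕ, q.Prime → (q : ℤ) ∣ c → q % p ≠ 1)
    (hz : ‖z ⟨p, Fact.out⟩‖ = 1) (q : Nat.Primes) (hqp : (q : ℕ) ≠ p)
    (hW : ¬ p ^ 2 ∣ (q : ℕ) ^ (p - 1) - 1) (hxy : ‖x q + y q‖ < 1) :
    ‖x ⟨p, Fact.out⟩ - y ⟨p, Fact.out⟩‖ < 1 := by
  classical
  have hpp : p.Prime := Fact.out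
  have hs := h.sum_unit hcp hz
  have hne : x ⟨p, hpp⟩ + y ⟨p, hpp⟩ ≠ 0 := by
    intro h0
    rw [h0, norm_zero] at hs
    exact zero_ne_one hs
  have hx1 : ‖x q‖ = 1 := by
    rcases h.one q with h1 | h1
    · exact h1
    · apply eq_one_of_not_lt (h.x1 q)
      intro h2
      have h3 := norm_sub_lt _ _ hxy h2
      rw [add_sub_cancel_left, h1] at h3
      exact lt_irrefl _ h3
  have hy1 : ‖y q‖ = 1 := by
    apply eq_one_of_not_lt (h.y1 q)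
    intro h2
    have h3 := norm_sub_lt _ _ hxy h2
    rw [add_sub_cancel_right, hx1] at h3
    exact lt_irrefl _ h3
  have hy0 : y q ≠ 0 := by
    intro h0
    rw [h0, norm_zero] at hy1
    exact zero_ne_one hy1
  obtain ⟨u, hu⟩ := ratioC k δ D h.twist _ _ _ hne (h.lifts ⟨p, hpp⟩)
  obtain ⟨v, hv⟩ := prodC hPR (by omega) k δ D h.twist _ _ _ hy0 (h.lifts q)
  have hN := cof_unit hpp hqp (h.x1 q) (h.y1 q) hx1 hxy
  set N := ∑ i ∈ Finset.range p, x q ^ i * (-y q) ^ (p - 1 - i) with hNdef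
  obtain ⟨k0, k1, k2, A₀, A₁, hA₀, hA₁, hA, i0, i1, i2⟩ :=
    approxC hcp _ _ (h.x1 ⟨p, hpp⟩) (h.y1 ⟨p, hpp⟩) hs
  have l0 : ‖N * x q‖ = 1 := by rw [norm_mul, hN, hx1, one_mul]
  have l1 : ‖N * y q‖ = 1 := by rw [norm_mul, hN, hy1, one_mul]
  obtain ⟨B₀, hB₀⟩ := approxInt (N * x q) l0.le 1 one_pos
  obtain ⟨B₁, hB₁⟩ := approxInt (N * y q) l1.le 1 one_pos
  have hB : (B₀ : ZMod (q : ℕ)) + (B₁ : ZMod (q : ℕ)) = 0 := by
    have h4 : ((B₀ + B₁ : ℤ) : ZMod (q : ℕ)) = 0 := by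
      rw [intCast_eq_zero_iff_norm]
      have e : ((B₀ + B₁ : ℤ) : ℚ_[(q : ℕ)]) = N * (x q + y q) -
          ((N * x q - (B₀ : ℚ_[(q : ℕ)])) + (N * y q - (B₁ : ℚ_[(q : ℕ)]))) := by
        push_cast
        ring
      rw [e]
      refine norm_sub_lt _ _ ?_ (norm_add_lt _ _ hB₀ hB₁)
      rw [norm_mul, hN, one_mul]
      exact hxy
    push_cast at h4
    exact h4
  have hB0 : (B₀ : ZMod (q : ℕ)) ≠ 0 := by
    rw [Ne, intCast_eq_zero_iff_norm]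
    intro h0
    have h6 := (norm_lt_iff_of_close _ _ hB₀).2 h0
    rw [l0] at h6
    exact lt_irrefl _ h6
  obtain ⟨f, n, hpn, hqn, hf0, hval, hf, hfq⟩ := coreC Pool.Agent.K3h97.FC.WA.main h5 k
    ((c : E) * (δ k.z / δ 1)) (h.hord h5 k hc0 hcp hcq hz) _ _ k0 k1 k2 u hu (q : ℕ) hqp _ _ l0.le
    l1.le v hv A₀ A₁ B₀ B₁ hA₀ hA₁ hB₀ hB₁
  have hcc : (c : ZMod p) ≠ 0 := by
    rw [Ne, ZMod.intCast_zmod_eq_zero_iff_dvd]
    exact hcp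
  have hnq : (n : ZMod (q : ℕ)) ≠ 0 := by
    rw [Ne, ZMod.intCast_zmod_eq_zero_iff_dvd]
    exact hqn
  have e : f.map (Int.castRingHom (ZMod (q : ℕ))) =
      Polynomial.C ((n : ZMod (q : ℕ)) * (B₀ : ZMod (q : ℕ))) *
      (Polynomial.C 1 + Polynomial.C (-1) * X) := by
    have e1 : (B₁ : ZMod (q : ℕ)) = (B₀ : ZMod (q : ℕ)) * (-1) := by linear_combination hB
    rw [hfq, e1]
    simp only [map_one, C_mul]
    ring
  exact i2.1 ((crit_use hCR h5 k f n hpn hf0 hval _ _ _ hcc hA hf (q : ℕ) hqp hqn hW _ 1 (-1)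
    (mul_ne_zero hnq hB0) e).2.2.2 ⟨rfl, rfl⟩)

end

end Pool.Agent.K3h1.TF
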