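import Pool.Agent.K3h1.TF.Core

/-!
# Project TF: the second case, statements
-/

set_option autoImplicit false

namespace Pool.Agent.K3h1.TF

open NumberField IsDedekindDomain Polynomial Pool.Agent.Y546.WQ Pool.Agent.K3h1.FC

open scoped TensorProduct

/-- `∏_{i=1}^{p-1} (1 + X + ... + X ^ (i - 1))` -/
noncomputable def etaPoly (p : ℕ) : Polynomial ℤ :=
  ∏ i ∈ Finset.range (p - 1), ∑ j ∈ Finset.range (i + 1), X ^ j

/-- ETA: the unit `p / (1 - ζ) ^ (p - 1)` and its expansion at `1` -/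
def S_ETA : Prop := ∀ (p : ℕ) [Fact p.Prime], 5 ≤ p → ∀ (E : Type) [Field E] [NumberField E]
  (k : Cyc p E), aeval k.z (etaPoly p) * (1 - k.z) ^ (p - 1) = p ∧
  ((etaPoly p).map (Int.castRingHom (ZMod p))).eval 1 ≠ 0 ∧
  2 * (derivative ((etaPoly p).map (Int.castRingHom (ZMod p)))).eval 1 =
    ((etaPoly p).map (Int.castRingHom (ZMod p))).eval 1

/-- NP: the norm of the cofactor at `p` -/
def S_NP : Prop := ∀ (p : ℕ) [Fact p.Prime], 5 ≤ p → ∀ (x y : ℚ_[p]), ‖x‖ = 1 → ‖y‖ ≤ 1 →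
  ‖x + y‖ < 1 → ‖∑ i ∈ Finset.range p, x ^ i * (-y) ^ (p - 1 - i)‖ = (p : ℝ)⁻¹

/-- CRIT3: the criterion for a polynomial that is symmetric modulo `q` -/
def S_CRIT3 : Prop := ∀ (p : ℕ) [Fact p.Prime], 5 ≤ p → ∀ (E : Type) [Field E] [NumberField E]
  (k : Cyc p E) (f : Polynomial ℤ) (n : ℤ), ¬ (p : ℤ) ∣ n → ¬ (p : ℤ) ∣ f.eval 1 →
  aeval k.z f ≠ 0 →
  (∀ P : HeightOneSpectrum (𝓞 E), ∃ m : ℤ, P.valuation E (aeval k.z f) =
    P.valuation E ((n : ℤ) : E) * WithZero.exp ((p : ℤ) * m)) →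
  ∀ (q : ℕ) [Fact q.Prime], q ≠ p → ¬ (q : ℤ) ∣ n → ¬ p ^ 2 ∣ q ^ (p - 1) - 1 →
    ∀ b B₀ B₁ : ZMod q, b ≠ 0 →
    f.map (Int.castRingHom (ZMod q)) = Polynomial.C b *
      (Polynomial.C B₀ + Polynomial.C B₁ * X) →
    (B₀ = 0 ∧ B₁ = 1 → (derivative (f.map (Int.castRingHom (ZMod p)))).eval 1 =
      (f.map (Int.castRingHom (ZMod p))).eval 1) ∧
    (B₀ = 1 ∧ B₁ = 0 → (derivative (f.map (Int.castRingHom (ZMod p)))).eval 1 = 0)

end Pool.Agent.K3h1.TF
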