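import Pool.Agent.K3h1.TF.Main
import Pool.Agent.K3h1.TF.Stm2

/-!
# Project TF: the second case
-/

set_option autoImplicit false

namespace Pool.Agent.K3h1.TF

open NumberField IsDedekindDomain Polynomial Pool.Agent.Y546.WQ Pool.Agent.K3h1.FC

open scoped TensorProduct

section

variable {p : ℕ} [Fact p.Prime] {E : Type} [Field E] [NumberField E]

theorem aeval_cycl (c : Cyc p E) : aeval c.z (cyclotomic p ℤ) = 0 := by
  have h2 : aeval c.z (cyclotomic p ℚ) = 0 := by
    rw [cycl_minpoly c]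
    exact minpoly.aeval ℚ c.z
  rw [← map_cyclotomic p (Int.castRingHom ℚ)] at h2
  rw [aeval_def, eval₂_map] at h2
  rw [aeval_def]
  have e : (algebraMap ℚ E).comp (Int.castRingHom ℚ) = algebraMap ℤ E := RingHom.ext_int _ _
  rwa [e] at h2

theorem cycl_deg : (cyclotomic p ℤ).natDegree = p - 1 := by
  rw [natDegree_cyclotomic, Nat.totient_prime Fact.out]

theorem mod_deg (F : Polynomial ℤ) : (F %ₘ cyclotomic p ℤ).natDegree < p - 1 := by
  have hpp : p.Prime := Fact.out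
  have hne : cyclotomic p ℤ ≠ 1 := by
    intro h
    have hd := cycl_deg (p := p)
    rw [h, natDegree_one] at hd
    have := hpp.two_le
    omega
  have := natDegree_modByMonic_lt F (cyclotomic.monic p ℤ) hne
  rwa [cycl_deg] at this

/-- the coordinates of an integral polynomial in `z` -/
theorem rc_mod (c : Cyc p E) (F : Polynomial ℤ) (i : Fin (p - 1)) :
    rc c (aeval c.z F) i = ((F %ₘ cyclotomic p ℤ).coeff i : ℚ) := by
  have hz := aeval_cycl c
  have hlt := mod_deg (p := p) F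
  have h3 : aeval c.z F = aeval c.z (F %ₘ cyclotomic p ℤ) := by
    conv_lhs => rw [← modByMonic_add_div F (cyclotomic p ℤ)]
    rw [map_add, map_mul, hz, zero_mul, add_zero]
  have h4 : aeval c.z (F %ₘ cyclotomic p ℤ) =
      ∑ j : Fin (p - 1), (((F %ₘ cyclotomic p ℤ).coeff j : ℤ) : ℚ) • bas c j := by
    rw [aeval_eq_sum_range' hlt, ← Fin.sum_univ_eq_sum_range
      (fun j => (F %ₘ cyclotomic p ℤ).coeff j • c.z ^ j)]
    refine Finset.sum_congr rfl fun j _ => ?_
    rw [bas_apply, Algebra.smul_def, Algebra.smul_def]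
    simp
  unfold rc
  rw [h3, h4, map_sum, Finsupp.finsetSum_apply]
  simp only [map_smul, Module.Basis.repr_self, Finsupp.smul_apply, smul_eq_mul]
  rw [Finset.sum_eq_single i]
  · simp
  · intro j _ hj
    rw [Finsupp.single_eq_of_ne' hj, mul_zero]
  · intro h
    exact absurd (Finset.mem_univ i) h

theorem Le_aeval {r : ℕ} [Fact r.Prime] (c : Cyc p E) (F : Polynomial ℤ) :
    Le r c ((1 : ℚ_[r]) ⊗ₜ[ℚ] (aeval c.z F)) 1 := by
  intro i
  rw [lc_tmul, mul_one, rc_mod]
  push_cast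
  exact Padic.norm_int_le_one _

/-- the cyclotomic polynomial modulo `p` -/
theorem cycl_map : (cyclotomic p ℤ).map (Int.castRingHom (ZMod p)) = (X - 1) ^ (p - 1) := by
  have hpp : p.Prime := Fact.out
  rw [map_cyclotomic]
  have h1 : cyclotomic p (ZMod p) * (X - 1) = (X - 1) ^ (p - 1) * (X - 1) := by
    rw [cyclotomic_prime_mul_X_sub_one, ← pow_succ, Nat.sub_add_cancel hpp.one_le, sub_pow_char,
      one_pow]
  have h2 : (X - 1 : (ZMod p)[X]) ≠ 0 := by
    have := X_sub_C_ne_zero (1 : ZMod p)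
    rwa [map_one] at this
  exact mul_right_cancel₀ h2 h1

/-- evaluation at `1` and the derivative at `1` depend only on the value at `z` -/
theorem eval_mod (h3 : 3 ≤ p) (T : Polynomial ℤ) :
    ((T %ₘ cyclotomic p ℤ).map (Int.castRingHom (ZMod p))).eval 1 =
      (T.map (Int.castRingHom (ZMod p))).eval 1 ∧
    (derivative ((T %ₘ cyclotomic p ℤ).map (Int.castRingHom (ZMod p)))).eval 1 =
      (derivative (T.map (Int.castRingHom (ZMod p)))).eval 1 := by
  have e : T.map (Int.castRingHom (ZMod p)) = (T %ₘ cyclotomic p ℤ).map (Int.castRingHom (ZMod p)) +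
      (X - 1) ^ (p - 1) * (T /ₘ cyclotomic p ℤ).map (Int.castRingHom (ZMod p)) := by
    conv_lhs => rw [← modByMonic_add_div T (cyclotomic p ℤ)]
    rw [Polynomial.map_add, Polynomial.map_mul, cycl_map]
  obtain ⟨m, hm⟩ : ∃ m, p - 1 = m + 2 := ⟨p - 3, by omega⟩
  constructor
  · rw [e, eval_add, eval_mul, eval_pow, eval_sub, eval_X, eval_one, sub_self, hm,
      zero_pow (by omega), zero_mul, add_zero]
  · rw [e, derivative_add, derivative_mul, derivative_pow, eval_add, eval_add, eval_mul, eval_mul,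
      hm]
    simp

/-- a global element with given residues, the second case -/
theorem core3 (hWA : S_WA) (h5 : 5 ≤ p) (c : Cyc p E) (β : E)
    (hord : ∀ P : HeightOneSpectrum (𝓞 E), ((p : ℕ) : 𝓞 E) ∉ P.asIdeal → ∃ m : ℤ,
      P.valuation E β = WithZero.exp ((p : ℤ) * m))
    (T : Polynomial ℤ) (hT : (T.map (Int.castRingHom (ZMod p))).eval 1 ≠ 0)
    (a : ℚ_[p]) (ha : ‖a‖ = 1) (S : Loc p E) (hS : Le p c S (1 / 2)) (u : Loc p E)
    (hu : ((1 : ℚ_[p]) ⊗ₜ[ℚ] β) * u ^ p = a ⊗ₜ[ℚ] (aeval c.z T) + S)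
    (q : ℕ) [Fact q.Prime] (hqp : q ≠ p) (b₀ b₁ : ℚ_[q]) (hb₀ : ‖b₀‖ ≤ 1) (hb₁ : ‖b₁‖ ≤ 1)
    (v : Loc q E) (hv : ((1 : ℚ_[q]) ⊗ₜ[ℚ] β) * v ^ p = b₀ ⊗ₜ[ℚ] (1 : E) + b₁ ⊗ₜ[ℚ] c.z)
    (B₀ B₁ : ℤ) (hB₀ : ‖b₀ - (B₀ : ℚ_[q])‖ < 1) (hB₁ : ‖b₁ - (B₁ : ℚ_[q])‖ < 1) :
    ∃ (f : ℤ[X]) (n : ℤ) (κ : ZMod p), ¬ (p : ℤ) ∣ n ∧ ¬ (q : ℤ) ∣ n ∧ κ ≠ 0 ∧ aeval c.z f ≠ 0 ∧
      ¬ (p : ℤ) ∣ f.eval 1 ∧
      (∀ P : HeightOneSpectrum (𝓞 E), ∃ m : ℤ, P.valuation E (aeval c.z f) =
        P.valuation E ((n : ℤ) : E) * WithZero.exp ((p : ℤ) * m)) ∧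
      (f.map (Int.castRingHom (ZMod p))).eval 1 =
        κ * (T.map (Int.castRingHom (ZMod p))).eval 1 ∧
      (derivative (f.map (Int.castRingHom (ZMod p)))).eval 1 =
        κ * (derivative (T.map (Int.castRingHom (ZMod p)))).eval 1 ∧
      f.map (Int.castRingHom (ZMod q)) = Polynomial.C (n : ZMod q) *
        (Polynomial.C (B₀ : ZMod q) + Polynomial.C (B₁ : ZMod q) * X) := by
  have hpp : p.Prime := Fact.out
  obtain ⟨ε₁, hε₁, h₁⟩ := prec c β u
  obtain ⟨ε₂, hε₂, h₂⟩ := prec c β v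
  obtain ⟨u', hu1, hu2⟩ := approx2 hWA hqp.symm c u v (min ε₁ ε₂) (lt_min hε₁ hε₂)
  have k1 := h₁ u' (hu1.mono (min_le_left _ _))
  have k2 := h₂ u' (hu2.mono (min_le_right _ _))
  rw [hu] at k1
  rw [hv] at k2
  set e := β * u' ^ p with he
  have k1' : Le p c (a ⊗ₜ[ℚ] (aeval c.z T) - (1 : ℚ_[p]) ⊗ₜ[ℚ] e) (1 / 2) := by
    have e1 : (a ⊗ₜ[ℚ] (aeval c.z T) - (1 : ℚ_[p]) ⊗ₜ[ℚ] e : Loc p E) =
        (a ⊗ₜ[ℚ] (aeval c.z T) + S - (1 : ℚ_[p]) ⊗ₜ[ℚ] e) - S := by ring
    rw [e1]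
    exact k1.sub hS
  set R := T %ₘ cyclotomic p ℤ with hR
  have hco : ∀ i : Fin (p - 1), ‖a * (R.coeff i : ℚ_[p]) - (rc c e i : ℚ_[p])‖ ≤ 1 / 2 := by
    intro i
    have h1 := k1' i
    rw [lc_sub, lc_tmul, lc_tmul, mul_one, rc_mod] at h1
    push_cast at h1
    rw [mul_comm] at h1
    exact h1
  obtain ⟨n, g, hn, hg, hng⟩ := exists_int (fun i => rc c e i)
  have hlep : ∀ i, ‖(rc c e i : ℚ_[p])‖ ≤ 1 := by
    intro i
    have h2 : (rc c e i : ℚ_[p]) = a * (R.coeff i : ℚ_[p]) -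
        (a * (R.coeff i : ℚ_[p]) - (rc c e i : ℚ_[p])) := by ring
    rw [h2, sub_eq_add_neg]
    refine (Padic.nonarchimedean _ _).trans (max_le ?_ ?_)
    · rw [norm_mul, ha, one_mul]
      exact Padic.norm_int_le_one _
    · rw [norm_neg]
      linarith [hco i]
  have hleq : ∀ i, ‖(rc c e i : ℚ_[q])‖ ≤ 1 := by
    intro i
    have h1 := k2 i
    rw [lc_sub, lc_lin h5, lc_tmul, mul_one] at h1
    have h2 : (rc c e i : ℚ_[q]) = (if (i : ℕ) = 0 then b₀ else if (i : ℕ) = 1 then b₁ else 0) -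
        ((if (i : ℕ) = 0 then b₀ else if (i : ℕ) = 1 then b₁ else 0) - (rc c e i : ℚ_[q])) := by
      ring
    rw [h2, sub_eq_add_neg]
    refine (Padic.nonarchimedean _ _).trans (max_le ?_ ?_)
    · split_ifs
      · exact hb₀
      · exact hb₁
      · rw [norm_zero]; exact zero_le_one
    · rw [norm_neg]
      linarith
  have hpn := hng p hlep
  have hqn := hng q hleq
  obtain ⟨A, hA⟩ := approxInt a ha.le 1 one_pos
  have hA0 : (A : ZMod p) ≠ 0 := by
    rw [Ne, intCast_eq_zero_iff_norm]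
    intro h0
    have h6 := (norm_lt_iff_of_close _ _ hA).2 h0
    rw [ha] at h6
    exact lt_irrefl _ h6
  have hn0 : (n : ZMod p) ≠ 0 := by
    rw [Ne, ZMod.intCast_zmod_eq_zero_iff_dvd]
    exact hpn
  set f : ℤ[X] := ∑ i, Polynomial.C (g i) * X ^ (i : ℕ) with hfdef
  have hf : aeval c.z f = (n : E) * e := by
    rw [hfdef, map_sum]
    conv_rhs => rw [← sum_rc c e]
    rw [Finset.mul_sum]
    refine Finset.sum_congr rfl fun i _ => ?_
    rw [map_mul, map_pow, aeval_X, aeval_C]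
    have h3 : (algebraMap ℤ E) (g i) = (n : E) * (rc c e i : E) := by
      have h4 : ((g i : ℚ) : E) = ((n * rc c e i : ℚ) : E) := by rw [hg i]
      push_cast at h4
      simpa using h4
    rw [h3]
    ring
  -- the coefficients modulo `p`
  have hfp : f.map (Int.castRingHom (ZMod p)) =
      Polynomial.C ((n : ZMod p) * (A : ZMod p)) * R.map (Int.castRingHom (ZMod p)) := by
    ext k
    rw [coeff_map, hfdef, finsetSum_coeff, coeff_C_mul, coeff_map]
    simp only [coeff_C_mul, coeff_X_pow]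
    by_cases hk : k < p - 1
    · rw [Finset.sum_eq_single (⟨k, hk⟩ : Fin (p - 1))]
      · simp only [if_true, mul_one, eq_intCast]
        have h3 : ‖((g ⟨k, hk⟩ - n * A * R.coeff k : ℤ) : ℚ_[p])‖ < 1 := by
          have e2 : ((g ⟨k, hk⟩ : ℚ) : ℚ_[p]) = ((n * rc c e ⟨k, hk⟩ : ℚ) : ℚ_[p]) := by
            rw [hg ⟨k, hk⟩]
          have e1 : ((g ⟨k, hk⟩ - n * A * R.coeff k : ℤ) : ℚ_[p]) =
              (n : ℚ_[p]) * ((a - (A : ℚ_[p])) * (R.coeff k : ℚ_[p]) -
                (a * (R.coeff k : ℚ_[p]) - (rc c e ⟨k, hk⟩ : ℚ_[p]))) := by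
            push_cast at e2 ⊢
            rw [e2]
            ring
          rw [e1, norm_mul]
          have h4 : ‖(a - (A : ℚ_[p])) * (R.coeff k : ℚ_[p]) -
                (a * (R.coeff k : ℚ_[p]) - (rc c e ⟨k, hk⟩ : ℚ_[p]))‖ < 1 := by
            rw [sub_eq_add_neg]
            refine (Padic.nonarchimedean _ _).trans_lt (max_lt ?_ ?_)
            · rw [norm_mul]
              calc ‖a - (A : ℚ_[p])‖ * ‖(R.coeff k : ℚ_[p])‖ ≤ ‖a - (A : ℚ_[p])‖ * 1 :=
                    mul_le_mul_of_nonneg_left (Padic.norm_int_le_one _) (norm_nonneg _)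
                _ < 1 := by rwa [mul_one]
            · rw [norm_neg]
              have := hco ⟨k, hk⟩
              simp only at this
              linarith
          calc ‖(n : ℚ_[p])‖ * _ ≤ 1 * _ :=
                mul_le_mul_of_nonneg_right (Padic.norm_int_le_one n) (norm_nonneg _)
            _ < 1 := by rwa [one_mul]
        have h4 : (p : ℤ) ∣ g ⟨k, hk⟩ - n * A * R.coeff k := Padic.norm_intCast_lt_one_iff.1 h3
        have h5 := (ZMod.intCast_zmod_eq_zero_iff_dvd (g ⟨k, hk⟩ - n * A * R.coeff k) p).2 h4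
        push_cast at h5
        exact sub_eq_zero.1 h5
      · intro j _ hj
        rw [if_neg, mul_zero]
        intro h1
        apply hj
        exact Fin.ext h1.symm
      · intro h1
        exact absurd (Finset.mem_univ _) h1
    · rw [Finset.sum_eq_zero]
      · have h1 : R.coeff k = 0 := coeff_eq_zero_of_natDegree_lt (by
          have := mod_deg (p := p) T
          rw [← hR] at this
          omega)
        rw [h1]
        simp
      · intro j _
        have := j.2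
        rw [if_neg (by omega), mul_zero]
  obtain ⟨hev, hder⟩ := eval_mod (p := p) (by omega) T
  rw [← hR] at hev hder
  have h1 : (f.map (Int.castRingHom (ZMod p))).eval 1 =
      ((n : ZMod p) * (A : ZMod p)) * (T.map (Int.castRingHom (ZMod p))).eval 1 := by
    rw [hfp, eval_mul, eval_C, hev]
  have h2 : (derivative (f.map (Int.castRingHom (ZMod p)))).eval 1 =
      ((n : ZMod p) * (A : ZMod p)) * (derivative (T.map (Int.castRingHom (ZMod p)))).eval 1 := by
    rw [hfp, derivative_C_mul, eval_mul, eval_C, hder]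
  have hf1 : ¬ (p : ℤ) ∣ f.eval 1 := by
    intro h
    have h3 : (f.map (Int.castRingHom (ZMod p))).eval 1 = 0 := by
      have e3 := eval_intCast_map (Int.castRingHom (ZMod p)) f 1
      rw [Int.cast_one] at e3
      rw [e3]
      exact (ZMod.intCast_zmod_eq_zero_iff_dvd _ p).2 h
    rw [h1] at h3
    exact mul_ne_zero (mul_ne_zero hn0 hA0) hT h3
  have hnE : (n : E) ≠ 0 := by exact_mod_cast hn
  have he0 : e ≠ 0 := by
    intro h0
    apply hf1
    have h6 : f = 0 := by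
      rw [hfdef]
      apply Finset.sum_eq_zero
      intro i _
      have h7 : (g i : ℚ) = 0 := by
        rw [hg i, h0]
        simp [rc]
      have h8 : g i = 0 := by exact_mod_cast h7
      rw [h8]
      simp
    rw [h6, eval_zero]
    exact dvd_zero _
  have hu'0 : u' ≠ 0 := by
    intro h0
    apply he0
    rw [he, h0, zero_pow hpp.ne_zero, mul_zero]
  refine ⟨f, n, (n : ZMod p) * (A : ZMod p), hpn, hqn, mul_ne_zero hn0 hA0, ?_, hf1, fun P => ?_,
    h1, h2, map_eq h5 c e n g hg b₀ b₁ B₀ B₁ hB₀ hB₁ k2⟩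
  · rw [hf]
    exact mul_ne_zero hnE he0
  · by_cases hP : ((p : ℕ) : 𝓞 E) ∈ P.asIdeal
    · -- the prime above `p`
      refine ⟨0, ?_⟩
      have hnP : P.valuation E ((n : ℤ) : E) = 1 := by
        have e1 : ((n : 𝓞 E) : E) = (n : E) := by simp
        rw [← e1, val_int_iff]
        exact int_notMem P.asIdeal P.isPrime p hpp hP n hpn
      obtain ⟨w, hw, hwp⟩ := exists_zint c
      have hwf : ((aeval w f : 𝓞 E) : E) = aeval c.z f := by
        have h1 : algebraMap (𝓞 E) E w = c.z := hw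
        rw [← h1]
        exact (aeval_algebraMap_apply E w f).symm
      rw [hnP, ← hwf, mul_zero, WithZero.exp_zero, one_mul, val_int_iff]
      intro hmem
      apply int_notMem P.asIdeal P.isPrime p hpp hP (f.eval 1) hf1
      have hw1 : w ^ p = 1 := hwp.pow_eq_one
      have h3 : w - 1 ∣ aeval w f - ((f.eval 1 : ℤ) : 𝓞 E) := by
        have h4 : ((f.eval 1 : ℤ) : 𝓞 E) = aeval (1 : 𝓞 E) f := by
          rw [aeval_def, eval₂_at_one]
          simp
        rw [h4, aeval_def, aeval_def, ← eval_map, ← eval_map]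
        exact sub_dvd_eval_sub _ _ _
      have h4 : w - 1 ∈ P.asIdeal := by
        have := one_sub_mem w hw1 P.asIdeal P.isPrime hP
        have e1 : w - 1 = -(1 - w) := by ring
        rw [e1]
        exact neg_mem this
      have h6 := P.asIdeal.mem_of_dvd h3 h4
      have e2 : ((f.eval 1 : ℤ) : 𝓞 E) = aeval w f - (aeval w f - ((f.eval 1 : ℤ) : 𝓞 E)) := by ring
      rw [e2]
      exact P.asIdeal.sub_mem hmem h6
    · obtain ⟨m, hm⟩ := hord P hP
      obtain ⟨k, hk⟩ := mem_val_exp P u' hu'0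
      refine ⟨m + k, ?_⟩
      rw [hf, map_mul, he, map_mul, map_pow, hm, hk, ← WithZero.exp_nsmul, ← WithZero.exp_add]
      congr 2
      simp only [nsmul_eq_mul]
      ring

end

end Pool.Agent.K3h1.TF
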