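import Pool.Agent.K3h1.TF.Main2
import Pool.Agent.K3h1.TF.Fin

/-!
# Project TF: Furtwängler's first theorem in the second case
-/

set_option autoImplicit false

namespace Pool.Agent.K3h1.TF

open NumberField IsDedekindDomain Polynomial Pool.Agent.Y546.WQ Pool.Agent.K3h1.FC

open scoped TensorProduct

section

variable {p : ℕ} [Fact p.Prime] {E : Type} [Field E] [NumberField E]

omit [Fact p.Prime] in
theorem move {r : ℕ} [Fact r.Prime] (g : ℚ_[r]) (s : ℚ) (e : E) :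
    (g ⊗ₜ[ℚ] ((s : E) * e) : Loc r E) = ((s : ℚ_[r]) * g) ⊗ₜ[ℚ] e := by
  have e1 : (s : E) * e = s • e := by rw [Algebra.smul_def]; simp
  have e2 : s • g = (s : ℚ_[r]) * g := by rw [Algebra.smul_def]; simp
  rw [e1, ← TensorProduct.smul_tmul, e2]

theorem local_p (hET : S_ETA) (hNP : S_NP) (hPR : S_PRODZ) (h5 : 5 ≤ p) (k : Cyc p E) {c : ℤ}
    (δ : E → E) (D : E) (hT : TwistC p c E δ D) (x y z : ℚ_[p]) (hx : ‖x‖ = 1) (hy : ‖y‖ = 1)
    (hxy : ‖x + y‖ < 1) (hz : ‖z‖ < 1) (he : x ^ p + y ^ p = c * z ^ p)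
    (h : LiftsC p p E δ D x y z) :
    ∃ (a : ℚ_[p]) (S : Loc p E) (u : Loc p E), ‖a‖ = 1 ∧ Le p k S (1 / 2) ∧
      ((1 : ℚ_[p]) ⊗ₜ[ℚ] ((c : E) * (δ k.z / δ 1))) * u ^ p =
        a ⊗ₜ[ℚ] (aeval k.z (etaPoly p)) + S := by
  classical
  have hpp : p.Prime := Fact.out
  have hodd := hpp.odd_of_ne_two (by omega : p ≠ 2)
  have hy0 : y ≠ 0 := by
    rintro rfl
    rw [norm_zero] at hy
    exact zero_ne_one hy
  obtain ⟨u, hu⟩ := prodC hPR (by omega) k δ D hT x y z hy0 h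
  have hN := hNP p h5 x y hx hy.le hxy
  set N := ∑ i ∈ Finset.range p, x ^ i * (-y) ^ (p - 1 - i) with hNdef
  have hη := (hET p h5 E k).1
  set η := aeval k.z (etaPoly p) with hηdef
  have hpi : (1 : E) - k.z ≠ 0 := by
    intro h0
    exact k.prim.ne_one hpp.one_lt (sub_eq_zero.1 h0).symm
  set π : E := 1 - k.z with hπ
  have hpE : (p : E) ≠ 0 := by exact_mod_cast hpp.ne_zero
  have hpQ : (p : ℚ_[p]) ≠ 0 := by exact_mod_cast hpp.ne_zero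
  have hpR : (1 : ℝ) < p := by exact_mod_cast hpp.one_lt
  set F : Polynomial ℤ := etaPoly p * etaPoly p * (1 - X) ^ (p - 2) with hF
  have hFv : aeval k.z F = η * η * π ^ (p - 2) := by
    rw [hF, map_mul, map_mul, map_pow, map_sub, map_one, aeval_X]
  -- powers of `π`
  have h1 : (π⁻¹) ^ p = (((1 / (p : ℚ) ^ 2 : ℚ)) : E) * aeval k.z F := by
    rw [hFv]
    push_cast
    rw [inv_pow, inv_eq_iff_eq_inv, ← one_div, eq_div_iff (by
      refine mul_ne_zero (div_ne_zero one_ne_zero (pow_ne_zero _ hpE)) (mul_ne_zero (mul_ne_zero ?_ ?_)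
        (pow_ne_zero _ hpi)) <;>
      · intro h0
        rw [h0, zero_mul] at hη
        exact hpE hη.symm)]
    have e1 : π ^ p * (1 / (p : E) ^ 2 * (η * η * π ^ (p - 2))) =
        (η * π ^ (p - 1)) * (η * π ^ (p - 1)) / (p : E) ^ 2 := by
      have e2 : π ^ p * π ^ (p - 2) = π ^ (p - 1) * π ^ (p - 1) := by
        rw [← pow_add, ← pow_add]
        congr 1
        omega
      linear_combination (1 / (p : E) ^ 2 * η * η) * e2
    rw [e1, hη]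
    field_simp
  have h2 : π * (π⁻¹) ^ p = (((1 / (p : ℚ) : ℚ)) : E) * η := by
    push_cast
    have e1 : π ^ p = π ^ (p - 1) * π := by rw [← pow_succ, Nat.sub_add_cancel hpp.one_le]
    have e2 : (π ^ (p - 1))⁻¹ = η * (1 / (p : E)) := by
      rw [inv_eq_iff_eq_inv, ← one_div, eq_div_iff (by
        refine mul_ne_zero ?_ (div_ne_zero one_ne_zero hpE)
        intro h0
        rw [h0, zero_mul] at hη
        exact hpE hη.symm)]
      have e3 : π ^ (p - 1) * (η * (1 / (p : E))) = (η * π ^ (p - 1)) / p := by ring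
      rw [e3, hη, div_self hpE]
    rw [inv_pow, e1, mul_inv, e2]
    have e4 : π * (η * (1 / (p : E)) * π⁻¹) = (1 / (p : E)) * η * (π * π⁻¹) := by ring
    rw [e4, mul_inv_cancel₀ hpi, mul_one]
  have hz1 : k.z = 1 - π := by rw [hπ]; ring
  -- the product with `x + y`
  have hNs : N * (x + y) = x ^ p + y ^ p := by
    have e1 := geom_sum₂_mul x (-y) p
    rw [sub_neg_eq_add, hodd.neg_pow, sub_neg_eq_add] at e1
    exact e1
  have hzle := Pool.Agent.K3h97.FC.DIS.norm_le_inv hz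
  have hNn : ‖N * (x + y)‖ ≤ ((p : ℝ)⁻¹) ^ p := by
    rw [hNs, he, norm_mul, norm_pow]
    calc ‖(c : ℚ_[p])‖ * ‖z‖ ^ p ≤ 1 * ((p : ℝ)⁻¹) ^ p := by
          gcongr
          exact Padic.norm_int_le_one c
      _ = _ := one_mul _
  refine ⟨-(N * y) / p, (N * (x + y) / (p : ℚ_[p]) ^ 2) ⊗ₜ[ℚ] (aeval k.z F),
    u * ((1 : ℚ_[p]) ⊗ₜ[ℚ] π⁻¹), ?_, ?_, ?_⟩
  · rw [norm_div, norm_neg, norm_mul, hN, hy, mul_one, Padic.norm_p]
    exact div_self (by positivity)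
  · have e1 : ((N * (x + y) / (p : ℚ_[p]) ^ 2) ⊗ₜ[ℚ] (aeval k.z F) : Loc p E) =
        (N * (x + y) / (p : ℚ_[p]) ^ 2) • ((1 : ℚ_[p]) ⊗ₜ[ℚ] (aeval k.z F)) := by
      rw [TensorProduct.smul_tmul', smul_eq_mul, mul_one]
    rw [e1]
    have h3 : ‖N * (x + y) / (p : ℚ_[p]) ^ 2‖ ≤ 1 / 2 := by
      rw [norm_div, norm_pow, Padic.norm_p]
      have h4 : ((p : ℝ)⁻¹) ^ p = ((p : ℝ)⁻¹) ^ (p - 2) * ((p : ℝ)⁻¹) ^ 2 := by
        rw [← pow_add]
        congr 1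
        omega
      rw [h4] at hNn
      have h6 : (0 : ℝ) < ((p : ℝ)⁻¹) ^ 2 := by positivity
      rw [div_le_iff₀ h6]
      have h7 : ((p : ℝ)⁻¹) ^ (p - 2) ≤ 1 / 2 := by
        have h8 : ((p : ℝ)⁻¹) ≤ 1 / 2 := by
          have : (2 : ℝ) ≤ p := by exact_mod_cast hpp.two_le
          rw [inv_eq_one_div]
          exact one_div_le_one_div_of_le (by norm_num) this
        calc ((p : ℝ)⁻¹) ^ (p - 2) ≤ ((p : ℝ)⁻¹) ^ 1 := by
              apply pow_le_pow_of_le_one (by positivity)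
              · linarith
              · omega
          _ ≤ 1 / 2 := by rw [pow_one]; exact h8
      exact hNn.trans (mul_le_mul_of_nonneg_right h7 h6.le)
    have h4 := Le.smul h3 (Le_aeval (r := p) k F) (by norm_num)
    rwa [mul_one] at h4
  · have e1 : ((1 : ℚ_[p]) ⊗ₜ[ℚ] ((c : E) * (δ k.z / δ 1)) : Loc p E) *
        (u * ((1 : ℚ_[p]) ⊗ₜ[ℚ] π⁻¹)) ^ p =
        (((1 : ℚ_[p]) ⊗ₜ[ℚ] ((c : E) * (δ k.z / δ 1))) * u ^ p) *
          ((1 : ℚ_[p]) ⊗ₜ[ℚ] ((π⁻¹) ^ p)) := by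
      rw [one_tmul_pow, mul_pow]
      ring
    rw [e1, hu, add_mul, Algebra.TensorProduct.tmul_mul_tmul, Algebra.TensorProduct.tmul_mul_tmul,
      mul_one, mul_one, one_mul]
    have e2 : k.z * (π⁻¹) ^ p = (π⁻¹) ^ p - π * (π⁻¹) ^ p := by
      rw [hz1]
      ring
    rw [e2, h2, TensorProduct.tmul_sub, h1, move, move, move]
    have e3 : (N * (x + y) / (p : ℚ_[p]) ^ 2) = ((1 / (p : ℚ) ^ 2 : ℚ) : ℚ_[p]) * (N * x) +
        ((1 / (p : ℚ) ^ 2 : ℚ) : ℚ_[p]) * (N * y) := by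
      push_cast
      ring
    have e4 : -(N * y) / (p : ℚ_[p]) = -(((1 / (p : ℚ) : ℚ) : ℚ_[p]) * (N * y)) := by
      push_cast
      ring
    rw [e3, e4, TensorProduct.add_tmul, TensorProduct.neg_tmul]
    ring

variable {c : ℤ} {x y z : ∀ r : Nat.Primes, ℚ_[(r : ℕ)]} {δ : E → E} {D : E}

theorem DatC.hord' (hp2 : p ≠ 2) (k : Cyc p E) (h : DatC p c E x y z δ D) (hc0 : c ≠ 0)
    (hcq : ∀ q : ℕ, q.Prime → (q : ℤ) ∣ c → q % p ≠ 1) (P : HeightOneSpectrum (𝓞 E))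
    (hpP : ((p : ℕ) : 𝓞 E) ∉ P.asIdeal) :
    ∃ m : ℤ, P.valuation E ((c : E) * (δ k.z / δ 1)) = WithZero.exp ((p : ℤ) * m) := by
  obtain ⟨r, hr, hP⟩ := exists_prime_mem P
  have : Fact r.Prime := ⟨hr⟩
  have hcase : (r = p ∧ ‖x ⟨r, hr⟩ + y ⟨r, hr⟩‖ = 1) ∨
      (r ≠ p ∧ (¬ (r : ℤ) ∣ c ∨ r % p ≠ 1)) := by
    right
    refine ⟨?_, ?_⟩
    · rintro rfl
      exact hpP hP
    · by_cases hrc : (r : ℤ) ∣ c
      · exact Or.inr (hcq r hr hrc)
      · exact Or.inl hrc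
  exact ordC (r := r) hp2 k P hP δ D h.twist (x ⟨r, hr⟩) (y ⟨r, hr⟩) (z ⟨r, hr⟩)
    (h.x1 ⟨r, hr⟩) (h.y1 ⟨r, hr⟩) (h.one ⟨r, hr⟩) (h.lifts ⟨r, hr⟩) hcase hc0

/-- Furtwängler's first theorem for adelic points, the second case -/
theorem DatC.main3 (hET : S_ETA) (hNP : S_NP) (hC3 : S_CRIT3) (hPR : S_PRODZ) (h5 : 5 ≤ p)
    (k : Cyc p E) (h : DatC p c E x y z δ D) (hc0 : c ≠ 0)
    (hcq : ∀ q : ℕ, q.Prime → (q : ℤ) ∣ c → q % p ≠ 1)
    (hz : ‖z ⟨p, Fact.out⟩‖ < 1) (q : Nat.Primes) (hqp : (q : ℕ) ≠ p)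
    (hW : ¬ p ^ 2 ∣ (q : ℕ) ^ (p - 1) - 1) (hqc : ¬ ((q : ℕ) : ℤ) ∣ c) :
    ¬ ‖x q‖ < 1 ∧ ¬ ‖y q‖ < 1 := by
  have hpp : p.Prime := Fact.out
  obtain ⟨hx1, hxy⟩ := red_aux (h.x1 ⟨p, hpp⟩) (h.y1 ⟨p, hpp⟩) (h.one ⟨p, hpp⟩)
    (h.eq ⟨p, hpp⟩) hz
  have hy1 : ‖y ⟨p, hpp⟩‖ = 1 := by
    apply eq_one_of_not_lt (h.y1 ⟨p, hpp⟩)
    intro h2
    have h3 := norm_sub_lt _ _ hxy h2
    rw [add_sub_cancel_right, hx1] at h3
    exact lt_irrefl _ h3
  obtain ⟨a, S, u, ha, hS, hu⟩ := local_p hET hNP hPR h5 k δ D h.twist _ _ _ hx1 hy1 hxy hz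
    (h.eq ⟨p, hpp⟩) (h.lifts ⟨p, hpp⟩)
  obtain ⟨_, hT1, hT2⟩ := hET p h5 E k
  -- the contradiction
  have key : ‖x q + y q‖ = 1 → ‖x q‖ < 1 ∨ ‖y q‖ < 1 → False := by
    intro hsum hor
    have hneq : x q + y q ≠ 0 := by
      intro h0
      rw [h0, norm_zero] at hsum
      exact zero_ne_one hsum
    obtain ⟨v, hv⟩ := ratioC k δ D h.twist _ _ _ hneq (h.lifts q)
    obtain ⟨l0, l1, l2, B₀, B₁, hB₀, hB₁, hB, j0, j1, j2⟩ :=
      approxC hqc _ _ (h.x1 q) (h.y1 q) hsum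
    obtain ⟨f, n, κ, hpn, hqn, hκ, hf0, hf1, hval, hev, hder, hfq⟩ :=
      core3 Pool.Agent.K3h97.FC.WA.main h5 k ((c : E) * (δ k.z / δ 1))
        (h.hord' (by omega) k hc0 hcq) (etaPoly p) hT1 a ha S hS u hu (q : ℕ) hqp _ _ l0 l1 v hv
        B₀ B₁ hB₀ hB₁
    have hcq' : (c : ZMod (q : ℕ)) ≠ 0 := by
      rw [Ne, ZMod.intCast_zmod_eq_zero_iff_dvd]
      exact hqc
    have hnq : (n : ZMod (q : ℕ)) ≠ 0 := by
      rw [Ne, ZMod.intCast_zmod_eq_zero_iff_dvd]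
      exact hqn
    have h2D : 2 * (derivative (f.map (Int.castRingHom (ZMod p)))).eval 1 =
        (f.map (Int.castRingHom (ZMod p))).eval 1 := by
      rw [hev, hder]
      linear_combination κ * hT2
    have hfne : (f.map (Int.castRingHom (ZMod p))).eval 1 ≠ 0 := by
      rw [hev]
      exact mul_ne_zero hκ hT1
    rcases hor with h1 | h1
    · have hb0 : (B₀ : ZMod (q : ℕ)) = 0 := j0.2 h1
      rw [hb0, zero_add] at hB
      rw [hb0, hB] at hfq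
      have e : f.map (Int.castRingHom (ZMod (q : ℕ))) =
          Polynomial.C ((n : ZMod (q : ℕ)) * (c : ZMod (q : ℕ))) *
          (Polynomial.C 0 + Polynomial.C 1 * X) := by
        rw [hfq]
        simp only [map_zero, zero_add, map_one, one_mul, C_mul, mul_assoc]
      have h3 := (hC3 p h5 E k f n hpn hf1 hf0 hval (q : ℕ) hqp hqn hW _ 0 1
        (mul_ne_zero hnq hcq') e).1 ⟨rfl, rfl⟩
      apply hfne
      rw [h3] at h2D
      linear_combination h2D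
    · have hb0 : (B₁ : ZMod (q : ℕ)) = 0 := j1.2 h1
      rw [hb0, add_zero] at hB
      rw [hb0, hB] at hfq
      have e : f.map (Int.castRingHom (ZMod (q : ℕ))) =
          Polynomial.C ((n : ZMod (q : ℕ)) * (c : ZMod (q : ℕ))) *
          (Polynomial.C 1 + Polynomial.C 0 * X) := by
        rw [hfq]
        simp only [map_zero, zero_mul, add_zero, map_one, mul_one, C_mul]
      have h3 := (hC3 p h5 E k f n hpn hf1 hf0 hval (q : ℕ) hqp hqn hW _ 1 0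
        (mul_ne_zero hnq hcq') e).2 ⟨rfl, rfl⟩
      apply hfne
      rw [h3] at h2D
      rw [← h2D, mul_zero]
  have hsum : ∀ a b : ℚ_[(q : ℕ)], ‖a‖ < 1 → ‖b‖ = 1 → ‖a + b‖ = 1 := by
    intro a b ha hb
    rw [Padic.add_eq_max_of_ne (by rw [hb]; exact ha.ne), hb]
    exact max_eq_right ha.le
  refine ⟨fun h1 => ?_, fun h1 => ?_⟩
  · have h2 : ‖y q‖ = 1 := by
      rcases h.one q with h3 | h3
      · rw [h3] at h1; exact absurd h1 (lt_irrefl _)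
      · exact h3
    exact key (hsum _ _ h1 h2) (Or.inl h1)
  · have h2 : ‖x q‖ = 1 := by
      rcases h.one q with h3 | h3
      · exact h3
      · rw [h3] at h1; exact absurd h1 (lt_irrefl _)
    exact key (by rw [add_comm]; exact hsum _ _ h1 h2) (Or.inr h1)

end

end Pool.Agent.K3h1.TF
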