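import Pool.Agent.K3h1.TF.Stm
import Pool.Agent.K3h1.FC.Fer

/-!
# Project TF: the orders of `c δ_ζ / δ_1`
-/

set_option autoImplicit false

namespace Pool.Agent.K3h1.TF

open NumberField IsDedekindDomain Polynomial Pool.Agent.Y546.WQ Pool.Agent.K3h1.FC

open scoped TensorProduct

/-- `p`-th powers are injective modulo `r` -/
theorem pow_inj {p r : ℕ} [Fact r.Prime] (hp : p.Prime) (hrp : r ≠ p) (hr1 : r % p ≠ 1)
    {a b : ZMod r} (h : a ^ p = b ^ p) : a = b := by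
  have hr : r.Prime := Fact.out
  by_cases hb : b = 0
  · rw [hb, zero_pow hp.ne_zero] at h
    rw [hb]
    exact pow_eq_zero_iff hp.ne_zero |>.1 h
  have hcop : Nat.Coprime p (r - 1) := by
    rw [Nat.Prime.coprime_iff_not_dvd hp]
    intro hd
    apply hr1
    obtain ⟨m, hm⟩ := hd
    have h2 : r = p * m + 1 := by have := hr.one_lt; omega
    rw [h2, Nat.mul_add_mod, Nat.mod_eq_of_lt hp.one_lt]
  have ha : a ≠ 0 := by
    rintro rfl
    rw [zero_pow hp.ne_zero] at h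
    exact hb (pow_eq_zero_iff hp.ne_zero |>.1 h.symm)
  have h1 : (a / b) ^ p = 1 := by rw [div_pow, h, div_self (pow_ne_zero _ hb)]
  have h2 : (a / b) ^ (r - 1) = 1 := ZMod.pow_card_sub_one_eq_one (div_ne_zero ha hb)
  have h3 : orderOf (a / b) ∣ 1 := by
    rw [← hcop]
    exact Nat.dvd_gcd (orderOf_dvd_of_pow_eq_one h1) (orderOf_dvd_of_pow_eq_one h2)
  have h4 : a / b = 1 := orderOf_eq_one_iff.1 (Nat.dvd_one.1 h3)
  exact (div_eq_one_iff_eq hb).1 h4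

section

variable {p : ℕ} [Fact p.Prime] {E : Type} [Field E] [NumberField E] {r : ℕ} [Fact r.Prime]

/-- the difference of two roots of unity is not in `P` -/
theorem diff_notMem (hrp : r ≠ p) (P : HeightOneSpectrum (𝓞 E))
    (hP : ((r : ℕ) : 𝓞 E) ∈ P.asIdeal) (a b : 𝓞 E) (ha : a ^ p = 1) (hb : b ^ p = 1)
    (hab : a ≠ b) : a - b ∉ P.asIdeal := by
  have hpp : p.Prime := Fact.out
  have hr : r.Prime := Fact.out
  intro h3
  have hη : (b * a ^ (p - 1)) ^ p = 1 := by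
    rw [mul_pow, ← pow_mul, mul_comm (p - 1) p, pow_mul, ha, hb, one_pow, one_mul]
  have hη1 : b * a ^ (p - 1) ≠ 1 := by
    intro he
    apply hab
    have h4 : a ^ (p - 1) * a = 1 := by rw [← pow_succ, Nat.sub_add_cancel hpp.one_le, ha]
    calc a = b * a ^ (p - 1) * a := by rw [he, one_mul]
      _ = b * (a ^ (p - 1) * a) := by ring
      _ = b := by rw [h4, mul_one]
  have hprim : IsPrimitiveRoot (b * a ^ (p - 1)) p := by
    rw [IsPrimitiveRoot.iff_orderOf]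
    exact orderOf_eq_prime hη hη1
  have h5 : 1 - b * a ^ (p - 1) ∈ P.asIdeal := by
    have h6 : (1 : 𝓞 E) - b * a ^ (p - 1) = (a - b) * a ^ (p - 1) := by
      have h4 : a * a ^ (p - 1) = 1 := by rw [← pow_succ', Nat.sub_add_cancel hpp.one_le, ha]
      rw [sub_mul, h4]
    rw [h6]
    exact P.asIdeal.mul_mem_right _ h3
  have h6 := p_mem_of_one_sub_mem _ hprim P.asIdeal h5
  refine int_notMem P.asIdeal P.isPrime p hpp h6 (r : ℤ) ?_ (by exact_mod_cast hP)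
  intro h7
  have h8 : p ∣ r := by exact_mod_cast h7
  exact hrp ((Nat.prime_dvd_prime_iff_eq hpp hr).1 h8).symm

/-- two of the factors are not both in `P` -/
theorem two_exc (hrp : r ≠ p) (P : HeightOneSpectrum (𝓞 E))
    (hP : ((r : ℕ) : 𝓞 E) ∈ P.asIdeal) (X Y : ℤ) (hXY : ¬ ((r : ℤ) ∣ X ∧ (r : ℤ) ∣ Y))
    (a b : 𝓞 E) (ha : a ^ p = 1) (hb : b ^ p = 1) (hab : a ≠ b)
    (h1 : (X : 𝓞 E) + a * (Y : 𝓞 E) ∈ P.asIdeal) (h2 : (X : 𝓞 E) + b * (Y : 𝓞 E) ∈ P.asIdeal) :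
    False := by
  have hr : r.Prime := Fact.out
  have hIP := P.isPrime
  have h3 : (a - b) * (Y : 𝓞 E) ∈ P.asIdeal := by
    have := P.asIdeal.sub_mem h1 h2
    have e : (X : 𝓞 E) + a * (Y : 𝓞 E) - ((X : 𝓞 E) + b * (Y : 𝓞 E)) = (a - b) * (Y : 𝓞 E) := by
      ring
    rwa [e] at this
  have h4 := (hIP.mem_or_mem h3).resolve_left (diff_notMem hrp P hP a b ha hb hab)
  have hYd : (r : ℤ) ∣ Y := by
    by_contra h5
    exact int_notMem P.asIdeal hIP r hr hP Y h5 h4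
  have hXP : (X : 𝓞 E) ∈ P.asIdeal := by
    have e : (X : 𝓞 E) = ((X : 𝓞 E) + a * (Y : 𝓞 E)) - a * (Y : 𝓞 E) := by ring
    rw [e]
    exact P.asIdeal.sub_mem h1 (P.asIdeal.mul_mem_left _ h4)
  have hXd : (r : ℤ) ∣ X := by
    by_contra h5
    exact int_notMem P.asIdeal hIP r hr hP X h5 hXP
  exact hXY ⟨hXd, hYd⟩

/-- the exceptional factor is rational if `r` is not `1` modulo `p` -/
theorem exc_one (hrp : r ≠ p) (hp2 : p ≠ 2) (hr1 : r % p ≠ 1) (P : HeightOneSpectrum (𝓞 E))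
    (hP : ((r : ℕ) : 𝓞 E) ∈ P.asIdeal) (X Y : ℤ) (hXY : ¬ ((r : ℤ) ∣ X ∧ (r : ℤ) ∣ Y))
    (b : 𝓞 E) (hb : b ^ p = 1) (hb1 : b ≠ 1)
    (h2 : (X : 𝓞 E) + b * (Y : 𝓞 E) ∈ P.asIdeal) : False := by
  have hpp : p.Prime := Fact.out
  have hr : r.Prime := Fact.out
  have hIP := P.isPrime
  have hodd := hpp.odd_of_ne_two hp2
  have h3 : ((X ^ p + Y ^ p : ℤ) : 𝓞 E) ∈ P.asIdeal := by
    have e : ((X ^ p + Y ^ p : ℤ) : 𝓞 E) = (X : 𝓞 E) ^ p - (-(b * (Y : 𝓞 E))) ^ p := by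
      push_cast
      rw [hodd.neg_pow, mul_pow, hb]
      ring
    rw [e]
    have h4 : (X : 𝓞 E) - (-(b * (Y : 𝓞 E))) ∣ (X : 𝓞 E) ^ p - (-(b * (Y : 𝓞 E))) ^ p :=
      sub_dvd_pow_sub_pow _ _ p
    refine P.asIdeal.mem_of_dvd h4 ?_
    rw [sub_neg_eq_add]
    exact h2
  have h4 : (r : ℤ) ∣ X ^ p + Y ^ p := by
    by_contra h5
    exact int_notMem P.asIdeal hIP r hr hP _ h5 h3
  have h5 : (X : ZMod r) = -(Y : ZMod r) := by
    apply pow_inj hpp hrp hr1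
    have h6 := (ZMod.intCast_zmod_eq_zero_iff_dvd (X ^ p + Y ^ p) r).2 h4
    push_cast at h6
    rw [hodd.neg_pow]
    linear_combination h6
  have h6 : (r : ℤ) ∣ X + Y := by
    rw [← ZMod.intCast_zmod_eq_zero_iff_dvd]
    push_cast
    rw [h5]
    ring
  refine two_exc hrp P hP X Y hXY b 1 hb (one_pow p) hb1 h2 ?_
  obtain ⟨m, hm⟩ := h6
  have e : (X : 𝓞 E) + 1 * (Y : 𝓞 E) = ((r : ℕ) : 𝓞 E) * (m : 𝓞 E) := by
    have := congrArg (fun t : ℤ => (t : 𝓞 E)) hm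
    push_cast at this
    rw [one_mul]
    exact_mod_cast this
  rw [e]
  exact P.asIdeal.mul_mem_right _ hP

omit [Fact p.Prime] in
theorem D_ne {c : ℤ} {δ : E → E} {D : E} (hT : TwistC p c E δ D) : D ≠ 0 := hT.ne'

/-- the order of the remaining factor -/
theorem ord_rem (P : HeightOneSpectrum (𝓞 E)) (k : Cyc p E) {c : ℤ} (δ : E → E) (D : E)
    (hT : TwistC p c E δ D) (κ : ℤ) (ξ₀ : E) (h₀ : ξ₀ ∈ nthRootsFinset p (1 : E))
    (h : ∀ ξ ∈ nthRootsFinset p (1 : E), ξ ≠ ξ₀ →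
      ∃ m : ℤ, P.valuation E (δ ξ) = WithZero.exp (κ + (p : ℤ) * m)) :
    ∃ m : ℤ, P.valuation E (δ ξ₀) = P.valuation E (c : E) * WithZero.exp (κ + (p : ℤ) * m) := by
  classical
  have hpp : p.Prime := Fact.out
  choose! m hm using h
  obtain ⟨d, hd⟩ := mem_val_exp P D hT.ne'
  have h1 := congrArg (P.valuation E) hT.prod
  rw [map_prod, map_mul, map_pow, hd, ← Finset.mul_prod_erase _ _ h₀] at h1
  have h2 : ∏ η ∈ (nthRootsFinset p (1 : E)).erase ξ₀, P.valuation E (δ η) =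
      WithZero.exp (∑ η ∈ (nthRootsFinset p (1 : E)).erase ξ₀, (κ + (p : ℤ) * m η)) := by
    rw [exp_sum]
    refine Finset.prod_congr rfl fun η hη => ?_
    rw [Finset.mem_erase] at hη
    exact hm η hη.2 hη.1
  rw [h2, ← WithZero.exp_nsmul, Finset.sum_add_distrib,
    Finset.sum_const, Finset.card_erase_of_mem h₀, k.prim.card_nthRootsFinset,
    ← Finset.mul_sum] at h1
  refine ⟨d - κ - ∑ η ∈ (nthRootsFinset p (1 : E)).erase ξ₀, m η, ?_⟩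
  have h3 : ((p - 1 : ℕ) : ℤ) = (p : ℤ) - 1 := by
    rw [Nat.cast_sub hpp.one_le]
    rfl
  have h4 : (WithZero.exp ((p - 1) • κ + (p : ℤ) *
      ∑ i ∈ (nthRootsFinset p (1 : E)).erase ξ₀, m i) : WithZero (Multiplicative ℤ)) ≠ 0 :=
    WithZero.exp_ne_zero
  apply mul_right_cancel₀ h4
  rw [h1, mul_assoc, ← WithZero.exp_add]
  congr 2
  simp only [nsmul_eq_mul]
  rw [h3]
  ring

/-- the orders of `c δ_ζ / δ_1` are divisible by `p` -/
theorem ordC (hp2 : p ≠ 2) (k : Cyc p E) {c : ℤ} (P : HeightOneSpectrum (𝓞 E))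
    (hP : ((r : ℕ) : 𝓞 E) ∈ P.asIdeal) (δ : E → E) (D : E) (hT : TwistC p c E δ D)
    (x y z : ℚ_[r]) (hx : ‖x‖ ≤ 1) (hy : ‖y‖ ≤ 1) (hxy : ‖x‖ = 1 ∨ ‖y‖ = 1)
    (h : LiftsC p r E δ D x y z)
    (hcase : (r = p ∧ ‖x + y‖ = 1) ∨ (r ≠ p ∧ (¬ (r : ℤ) ∣ c ∨ r % p ≠ 1))) (hc0 : c ≠ 0) :
    ∃ m : ℤ, P.valuation E ((c : E) * (δ k.z / δ 1)) = WithZero.exp ((p : ℤ) * m) := by
  have hpp : p.Prime := Fact.out
  have hr : r.Prime := Fact.out
  have hz1 : k.z ∈ nthRootsFinset p (1 : E) := by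
    rw [mem_nthRootsFinset hpp.pos]
    exact k.prim.pow_eq_one
  have h11 : (1 : E) ∈ nthRootsFinset p (1 : E) := by
    rw [mem_nthRootsFinset hpp.pos]
    exact one_pow p
  have hzne : k.z ≠ 1 := k.prim.ne_one hpp.one_lt
  obtain ⟨C, w, hw, _⟩ := h
  obtain ⟨κ, X, Y, hX, hY, hκ⟩ := valp k P hP x y hx hy C w δ (nthRootsFinset p (1 : E))
    (fun ξ hξ => mem_mu k ξ hξ) hw
  have hXY : ¬ ((r : ℤ) ∣ X ∧ (r : ℤ) ∣ Y) := by
    rintro ⟨h1, h2⟩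
    rcases hxy with h3 | h3
    · exact not_dvd_of_norm x X h3 hX h1
    · exact not_dvd_of_norm y Y h3 hY h2
  have hcv : P.valuation E (c : E) ≠ 0 := by
    rw [Ne, map_eq_zero]
    exact_mod_cast hc0
  -- the case that the exceptional factor is the first one
  have hA : (∀ ξ ∈ nthRootsFinset p (1 : E), ξ ≠ 1 →
      P.valuation E ((X : E) + ξ * (Y : E)) = 1) →
      ∃ m : ℤ, P.valuation E ((c : E) * (δ k.z / δ 1)) = WithZero.exp ((p : ℤ) * m) := by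
    intro hall
    have h1 : ∀ ξ ∈ nthRootsFinset p (1 : E), ξ ≠ 1 →
        ∃ m : ℤ, P.valuation E (δ ξ) = WithZero.exp (κ + (p : ℤ) * m) :=
      fun ξ hξ hne => hκ ξ hξ (hall ξ hξ hne)
    obtain ⟨m₁, hm₁⟩ := ord_rem P k δ D hT κ 1 h11 h1
    obtain ⟨m₂, hm₂⟩ := h1 k.z hz1 hzne
    refine ⟨m₂ - m₁, ?_⟩
    rw [map_mul, map_div₀, hm₁, hm₂, mul_div_assoc', mul_div_mul_left _ _ hcv,
      ← WithZero.exp_sub]
    congr 1
    ring
  -- lifts of the roots of unity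
  have hmem : ∀ ξ ∈ nthRootsFinset p (1 : E), ∃ a : 𝓞 E, (a : E) = ξ ∧ a ^ p = 1 ∧
      (P.valuation E ((X : E) + ξ * (Y : E)) ≠ 1 → (X : 𝓞 E) + a * (Y : 𝓞 E) ∈ P.asIdeal) := by
    intro ξ hξ
    obtain ⟨a, ha, hap⟩ := mu_int k ξ hξ
    refine ⟨a, ha, hap, fun hne => ?_⟩
    by_contra h2
    apply hne
    have e1 : ((((X : 𝓞 E) + a * (Y : 𝓞 E) : 𝓞 E)) : E) = (X : E) + ξ * (Y : E) := by
      rw [← ha]
      simp
    rw [← e1, val_int_iff]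
    exact h2
  rcases hcase with ⟨hrp, hs⟩ | ⟨hrp, hc⟩
  · subst hrp
    apply hA
    intro ξ hξ _
    by_contra hne
    obtain ⟨a, ha, hap, h1⟩ := hmem ξ hξ
    have h2 := h1 hne
    have hXY' : ¬ (r : ℤ) ∣ X + Y := by
      apply not_dvd_of_norm (x + y) (X + Y) hs
      have e : x + y - ((X + Y : ℤ) : ℚ_[r]) = (x - (X : ℚ_[r])) + (y - (Y : ℚ_[r])) := by
        push_cast
        ring
      rw [e]
      exact (Padic.nonarchimedean _ _).trans_lt (max_lt hX hY)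
    apply int_notMem P.asIdeal P.isPrime r hpp hP (X + Y) hXY'
    have e2 : ((X + Y : ℤ) : 𝓞 E) = ((X : 𝓞 E) + a * (Y : 𝓞 E)) + (Y : 𝓞 E) * (1 - a) := by
      push_cast
      ring
    rw [e2]
    exact P.asIdeal.add_mem h2
      (P.asIdeal.mul_mem_left _ (one_sub_mem a hap P.asIdeal P.isPrime hP))
  by_cases hall : ∀ ξ ∈ nthRootsFinset p (1 : E), ξ ≠ 1 →
      P.valuation E ((X : E) + ξ * (Y : E)) = 1
  · exact hA hall
  push Not at hall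
  obtain ⟨ξ₀, h₀, h₀1, h₁⟩ := hall
  obtain ⟨b, hb, hbp, hbP⟩ := hmem ξ₀ h₀
  have hb1 : b ≠ 1 := by
    rintro rfl
    exact h₀1 (by rw [← hb]; simp)
  have hc' : ¬ (r : ℤ) ∣ c := by
    rcases hc with hc | hc
    · exact hc
    · exact (exc_one hrp hp2 hc P hP X Y hXY b hbp hb1 (hbP h₁)).elim
  have hvc : P.valuation E (c : E) = 1 := by
    have e : ((c : 𝓞 E) : E) = (c : E) := by simp
    rw [← e, val_int_iff]
    exact int_notMem P.asIdeal P.isPrime r hr hP c hc'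
  have h1 : ∀ ξ ∈ nthRootsFinset p (1 : E), ξ ≠ ξ₀ →
      ∃ m : ℤ, P.valuation E (δ ξ) = WithZero.exp (κ + (p : ℤ) * m) := by
    intro ξ hξ hne
    apply hκ ξ hξ
    by_contra hcon
    obtain ⟨a, ha, hap, haP⟩ := hmem ξ hξ
    refine two_exc hrp P hP X Y hXY a b hap hbp ?_ (haP hcon) (hbP h₁)
    intro he
    apply hne
    rw [← ha, ← hb, he]
  obtain ⟨m₀, hm₀⟩ := ord_rem P k δ D hT κ ξ₀ h₀ h1
  rw [hvc, one_mul] at hm₀
  have h2 : ∀ ξ ∈ nthRootsFinset p (1 : E),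
      ∃ m : ℤ, P.valuation E (δ ξ) = WithZero.exp (κ + (p : ℤ) * m) := by
    intro ξ hξ
    by_cases he : ξ = ξ₀
    · rw [he]; exact ⟨m₀, hm₀⟩
    · exact h1 ξ hξ he
  obtain ⟨m₁, hm₁⟩ := h2 1 h11
  obtain ⟨m₂, hm₂⟩ := h2 k.z hz1
  refine ⟨m₂ - m₁, ?_⟩
  rw [map_mul, map_div₀, hm₁, hm₂, hvc, one_mul, ← WithZero.exp_sub]
  congr 1
  ring

end

end Pool.Agent.K3h1.TF
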