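import Pool.Agent.K3h1.FC.Stm

/-!
# Project TF: the curves `x ^ p + y ^ p = c z ^ p`, statements

`p` is a prime number, `E` the `p`-th cyclotomic field.
-/

set_option autoImplicit false

namespace Pool.Agent.K3h1.TF

open NumberField IsDedekindDomain Polynomial Pool.Agent.Y546.WQ Pool.Agent.K3h1.FC

open scoped TensorProduct

/-- A twist of the covering of the curve `x ^ p + y ^ p = c z ^ p` over `E` by the `p`-th roots of the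
lines `x + ξ y` (`ξ` runs through the `p`-th roots of unity): the covering `x + ξ y = δ_ξ w_ξ ^ p`,
`z = D ∏ w_ξ`, where `∏ δ_ξ = c D ^ p`. -/
structure TwistC (p : ℕ) (c : ℤ) (E : Type) [Field E] (δ : E → E) (D : E) : Prop where
  ne : ∀ ξ ∈ nthRootsFinset p (1 : E), δ ξ ≠ 0
  ne' : D ≠ 0
  prod : ∏ ξ ∈ nthRootsFinset p (1 : E), δ ξ = c * D ^ p

/-- The point `(x : y : z)` over `ℚ_r` lifts to a point `w` of the twist over `ℚ_r ⊗ E`. -/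
def LiftsC (p r : ℕ) [Fact r.Prime] (E : Type) [Field E] [NumberField E] (δ : E → E) (D : E)
    (x y z : ℚ_[r]) : Prop :=
  ∃ (u : (Loc r E)ˣ) (w : E → Loc r E),
    (∀ ξ ∈ nthRootsFinset p (1 : E),
      (u : Loc r E) * (x ⊗ₜ[ℚ] (1 : E) + y ⊗ₜ[ℚ] ξ) = ((1 : ℚ_[r]) ⊗ₜ[ℚ] δ ξ) * w ξ ^ p) ∧
    (u : Loc r E) * (z ⊗ₜ[ℚ] (1 : E)) =
      ((1 : ℚ_[r]) ⊗ₜ[ℚ] D) * ∏ ξ ∈ nthRootsFinset p (1 : E), w ξ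

/-- `v` is a family of homogeneous coordinates of points of the curve `x ^ p + y ^ p = c z ^ p` over
all the fields `ℚ_r`: an adelic point of the curve (without the archimedean component). -/
structure AdelicC (p : ℕ) (c : ℤ) (v : ∀ r : Nat.Primes, Fin 3 → ℚ_[(r : ℕ)]) : Prop where
  ne : ∀ r, v r ≠ 0
  eq : ∀ r, v r 0 ^ p + v r 1 ^ p = c * v r 2 ^ p

/-- The adelic point lifts to a twist of the covering. -/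
def SurvivesC (p : ℕ) (c : ℤ) (E : Type) [Field E] [NumberField E]
    (v : ∀ r : Nat.Primes, Fin 3 → ℚ_[(r : ℕ)]) : Prop :=
  ∃ (δ : E → E) (D : E), TwistC p c E δ D ∧
    ∀ r : Nat.Primes, LiftsC p (r : ℕ) E δ D (v r 0) (v r 1) (v r 2)

/-- `p` or `-p`, congruent to `1` modulo `4` -/
def ps (p : ℕ) : ℤ := (-1) ^ ((p - 1) / 2) * p

/-- the form `(p^* - 1) x ^ (r - 1) + y ^ (r - 1) + r e x (x + y) y ^ (r - 3)` -/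
def fm (p r : ℕ) (e : ℤ) {R : Type} [CommRing R] (x y : R) : R :=
  ((ps p - 1 : ℤ) : R) * x ^ (r - 1) + y ^ (r - 1) +
    ((r * e : ℤ) : R) * (x * (x + y) * y ^ (r - 3))

/-- UEX -/
def S_UEX : Prop := ∀ p : ℕ, p.Prime → 3 ≤ p → ∃ u : ℕ, 0 < u ∧ u + 1 < p ∧
  ¬ p ^ 2 ∣ (1 + u ^ p) ^ (p - 1) - 1

/-- DIR: choice of the primes `c` and `r` -/
def S_DIR : Prop := ∀ p : ℕ, p.Prime → 5 ≤ p → ∀ u : ℕ, 0 < u → u + 1 < p →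
  (∃ (c t : ℕ), c.Prime ∧ p < c ∧ c % p ≠ 1 ∧ IsSquare (c : ZMod p) ∧ ¬ p ∣ t ∧
    c ≡ (1 + u ^ p) * t ^ p [MOD p ^ 2]) ∧
  ∃ r : ℕ, r.Prime ∧ p < r ∧ ¬ IsSquare (r : ZMod p) ∧ ¬ p ^ 2 ∣ r ^ (p - 1) - 1

/-- LOC1: the places with `(q / p) = 1` -/
def S_LOC1 : Prop := ∀ p : ℕ, p.Prime → 3 ≤ p → ∀ (q : ℕ) [Fact q.Prime], q ≠ p →
  IsSquare (q : ZMod p) → ∃ w : ℚ_[q], w ≠ 0 ∧ w ^ 2 = (ps p : ℤ)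

/-- LOC1': the other odd places -/
def S_LOC1' : Prop := ∀ p : ℕ, p.Prime → 3 ≤ p → ∀ r : ℕ, r.Prime → r ≠ 2 → r ≠ p →
  ¬ IsSquare (r : ZMod p) → ¬ IsSquare ((ps p : ℤ) : ZMod r)

/-- LOC2: `p`-th roots of units, the places `q ≠ p` with `q ≢ 1` modulo `p` -/
def S_LOC2 : Prop := ∀ p : ℕ, p.Prime → ∀ (q : ℕ) [Fact q.Prime], q ≠ p → q % p ≠ 1 →
  ∀ c : ℤ, ¬ (q : ℤ) ∣ c → ∃ y : ℚ_[q], y ≠ 0 ∧ y ^ p = c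

/-- LOC3: `p`-th roots in `ℚ_p` -/
def S_LOC3 : Prop := ∀ (p : ℕ) [Fact p.Prime], 3 ≤ p → ∀ a b t : ℤ, ¬ (p : ℤ) ∣ b → ¬ (p : ℤ) ∣ t →
  (p : ℤ) ^ 2 ∣ b - a * t ^ p → ∃ z : ℚ_[p], z ≠ 0 ∧ (a : ℚ_[p]) = b * z ^ p

/-- DISR: the points over `ℚ_r` of the double covering -/
def S_DISR : Prop := ∀ (p r : ℕ) [Fact r.Prime], 5 ≤ r → ¬ IsSquare ((ps p : ℤ) : ZMod r) →
  ∀ (e : ℤ) (x y w : ℚ_[r]), ‖x‖ = 1 → ‖y‖ = 1 → w ^ 2 = fm p r e x y → False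

/-- DISP: the points over `ℚ_p` of the double covering -/
def S_DISP : Prop := ∀ (p : ℕ) [Fact p.Prime], 5 ≤ p → ∀ r : ℕ, Odd r → 5 ≤ r →
  ∀ (c e : ℤ) (x y z w : ℚ_[p]), ‖x‖ ≤ 1 → ‖y‖ ≤ 1 → (‖x‖ = 1 ∨ ‖y‖ = 1) → ‖z‖ < 1 →
  x ^ p + y ^ p = c * z ^ p → w ^ 2 = fm p r e x y → False

/-- CONG: congruences modulo `p ^ 2` -/
def S_CONG : Prop := ∀ (p : ℕ) [Fact p.Prime], 3 ≤ p → ∀ (c : ℤ) (x y z : ℚ_[p]), ‖x‖ ≤ 1 →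
  ‖y‖ ≤ 1 → ‖z‖ = 1 → ¬ (p : ℤ) ∣ c → x ^ p + y ^ p = c * z ^ p →
  (‖x‖ < 1 → (p : ℤ) ^ 2 ∣ c ^ (p - 1) - 1) ∧ (‖y‖ < 1 → (p : ℤ) ^ 2 ∣ c ^ (p - 1) - 1) ∧
  (‖x - y‖ < 1 → (p : ℤ) ^ 2 ∣ c ^ (p - 1) - 2 ^ (p - 1))

/-- PRQ: a prime factor of `c` -/
def S_PRQ : Prop := ∀ p : ℕ, p.Prime → ∀ c : ℤ, c ≠ 0 → ¬ (p : ℤ) ^ 2 ∣ c ^ (p - 1) - 1 → Even (p - 1) →
  ∃ q : ℕ, q.Prime ∧ (q : ℤ) ∣ c ∧ ¬ p ∣ padicValInt q c ∧ ¬ (p : ℤ) ^ 2 ∣ (q : ℤ) ^ (p - 1) - 1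

/-- SUM: if `q` is not `1` modulo `p` then `q` divides `x ^ p + y ^ p` only if it divides `x + y` -/
def S_SUM : Prop := ∀ p : ℕ, p.Prime → p ≠ 2 → ∀ (q : ℕ) [Fact q.Prime], q % p ≠ 1 →
  ∀ x y : ℚ_[q], ‖x‖ ≤ 1 → ‖y‖ ≤ 1 → ‖x ^ p + y ^ p‖ < 1 → ‖x + y‖ < 1

/-- RATC: rational points survive -/
def S_RATC : Prop := ∀ (p : ℕ) [Fact p.Prime], p ≠ 2 → ∀ (E : Type) [Field E] [NumberField E]
  (_k : Cyc p E) (c : ℤ), c ≠ 0 → ∀ x y z : ℚ, (x ≠ 0 ∨ y ≠ 0 ∨ z ≠ 0) → x ^ p + y ^ p = c * z ^ p →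
  ∃ (δ : E → E) (D : E), TwistC p c E δ D ∧
    ∀ (r : ℕ) [Fact r.Prime], LiftsC p r E δ D (x : ℚ_[r]) (y : ℚ_[r]) (z : ℚ_[r])

/-- PRODZ: the product of all but one of the factors -/
def S_PRODZ : Prop := ∀ (p : ℕ) [Fact p.Prime], p ≠ 2 → ∀ (E : Type) [Field E] [NumberField E]
  [DecidableEq E] (_k : Cyc p E) (r : ℕ) [Fact r.Prime] (x y : ℚ_[r]), y ≠ 0 →
  ∏ ξ ∈ (nthRootsFinset p (1 : E)).erase 1, (x ⊗ₜ[ℚ] (1 : E) + y ⊗ₜ[ℚ] ξ : Loc r E) =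
    (∑ i ∈ Finset.range p, x ^ i * (-y) ^ (p - 1 - i)) ⊗ₜ[ℚ] (1 : E)

/-- CRIT2: Furtwängler's criteria for an element of the cyclotomic field whose ideal is a `p`-th
power and which is linear in `z` modulo `p` and modulo `q` -/
def S_CRIT2 : Prop := ∀ (p : ℕ) [Fact p.Prime], 5 ≤ p → ∀ (E : Type) [Field E] [NumberField E]
  (k : Cyc p E) (f : Polynomial ℤ) (n : ℤ), ¬ (p : ℤ) ∣ n → ∀ a A₀ A₁ : ZMod p, a ≠ 0 →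
  A₀ + A₁ = 1 →
  f.map (Int.castRingHom (ZMod p)) = Polynomial.C a * (Polynomial.C A₀ + Polynomial.C A₁ * X) →
  aeval k.z f ≠ 0 →
  (∀ P : HeightOneSpectrum (𝓞 E), ∃ m : ℤ, P.valuation E (aeval k.z f) =
    P.valuation E ((n : ℤ) : E) * WithZero.exp ((p : ℤ) * m)) →
  ∀ (q : ℕ) [Fact q.Prime], q ≠ p → ¬ (q : ℤ) ∣ n → ¬ p ^ 2 ∣ q ^ (p - 1) - 1 →
    ∀ b B₀ B₁ : ZMod q, b ≠ 0 →
    f.map (Int.castRingHom (ZMod q)) = Polynomial.C b *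
      (Polynomial.C B₀ + Polynomial.C B₁ * X) →
    (B₀ = 0 ∧ B₁ = 1 → A₀ = 0) ∧ (B₀ = 1 ∧ B₁ = 0 → A₁ = 0) ∧ (B₀ = 1 ∧ B₁ = 1 → A₀ = A₁) ∧
      (B₀ = 1 ∧ B₁ = -1 → A₀ = A₁)

end Pool.Agent.K3h1.TF
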